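import Mathlib

/-!
Definitions for homeohedral tilings of the plane.
-/

namespace Pool.Agent.Helper42.Tiling

/-- The Euclidean plane `ℝ²`. -/
abbrev Plane : Type := EuclideanSpace ℝ (Fin 2)

variable {X : Type*} [TopologicalSpace X]

/-- A tiling of `X` (used for `X = ℝ²`): a countable family of closed sets, the tiles, whose union
is the whole space and whose interiors are pairwise disjoint. -/
structure IsTiling (𝒯 : Set (Set X)) : Prop where
  countable : 𝒯.Countable
  isClosed : ∀ T ∈ 𝒯, IsClosed T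
  cover : ⋃₀ 𝒯 = Set.univ
  interiors : ∀ T ∈ 𝒯, ∀ T' ∈ 𝒯, T ≠ T' → Disjoint (interior T) (interior T')

/-- Condition N.1: every tile is a closed topological disk, i.e. homeomorphic to the closed
Euclidean unit disk. -/
def N1 (𝒯 : Set (Set X)) : Prop :=
  ∀ T ∈ 𝒯, Nonempty (T ≃ₜ Metric.closedBall (0 : Plane) 1)

/-- Condition N.2: any two tiles are either disjoint or meet in a connected set. -/
def N2 (𝒯 : Set (Set X)) : Prop :=
  ∀ T ∈ 𝒯, ∀ T' ∈ 𝒯, T ≠ T' → Disjoint T T' ∨ IsConnected (T ∩ T')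

/-- The homeomorphism `σ` of `X` onto itself maps the family `𝒯` onto itself. -/
def MapsOntoItself (σ : X ≃ₜ X) (𝒯 : Set (Set X)) : Prop :=
  {S : Set X | ∃ T ∈ 𝒯, S = σ '' T} = 𝒯

/-- `𝒯` is homeohedral: the homeomorphisms of the space onto itself that map `𝒯` onto itself act
transitively on the set of tiles. -/
def Homeohedral (𝒯 : Set (Set X)) : Prop :=
  ∀ T ∈ 𝒯, ∀ T' ∈ 𝒯, ∃ σ : X ≃ₜ X, MapsOntoItself σ 𝒯 ∧ σ '' T = T'

/-- `x` is a singular point of `𝒯`: every open disk centred at `x` meets infinitely many tiles. -/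
def IsSingularPoint (𝒯 : Set (Set Plane)) (x : Plane) : Prop :=
  ∀ r : ℝ, 0 < r → {T : Set Plane | T ∈ 𝒯 ∧ (T ∩ Metric.ball x r).Nonempty}.Infinite

end Pool.Agent.Helper42.Tiling
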