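import Mathlib

/-!
The congruence subgroup `Γ(2)` acting on the upper half plane, with the ideal quadrilateral
`W = {|x| ≤ 1, |x| ≤ |z|²}` as fundamental domain.
-/

namespace Pool.Agent.Helper42.Tiling

open UpperHalfPlane Matrix

/-- integral matrices of determinant one -/
abbrev SLZ := Matrix.SpecialLinearGroup (Fin 2) ℤ

/-- `|z|²` -/
def nn (z : ℍ) : ℝ := z.re ^ 2 + z.im ^ 2

lemma nn_pos (z : ℍ) : 0 < nn z := by
  unfold nn; have := z.im_pos; positivity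

lemma re_sq_lt_nn (z : ℍ) : z.re ^ 2 < nn z := by
  unfold nn; have := z.im_pos; nlinarith [sq_pos_of_pos this]

lemma nn_eq (z : ℍ) : nn z = Complex.normSq (z : ℂ) := by
  rw [Complex.normSq_apply]; unfold nn; simp [sq]

/-- the squared denominator -/
def dd (g : SLZ) (z : ℍ) : ℝ :=
  (g 1 0 : ℝ) ^ 2 * nn z + 2 * (g 1 0 : ℝ) * (g 1 1 : ℝ) * z.re + (g 1 1 : ℝ) ^ 2

lemma denom_eq (g : SLZ) (z : ℍ) : Complex.normSq (((g 1 0 : ℤ) : ℂ) * z + ((g 1 1 : ℤ) : ℂ)) = dd g z := by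
  rw [Complex.normSq_apply]
  simp only [Complex.add_re, Complex.mul_re, Complex.intCast_re, Complex.intCast_im, coe_re, coe_im,
    Complex.add_im, Complex.mul_im]
  unfold dd nn
  ring

lemma det_one (g : SLZ) : g 0 0 * g 1 1 - g 0 1 * g 1 0 = 1 := by
  have := g.det_coe
  rwa [Matrix.det_fin_two] at this

lemma det_one' (g : SLZ) : (g 0 0 : ℝ) * g 1 1 - g 0 1 * g 1 0 = 1 := by
  exact_mod_cast det_one g

lemma dd_pos (g : SLZ) (z : ℍ) : 0 < dd g z := by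
  have h1 := z.im_pos
  have h2 := det_one' g
  have h3 : dd g z = ((g 1 0 : ℝ) * z.re + g 1 1) ^ 2 + ((g 1 0 : ℝ) * z.im) ^ 2 := by
    unfold dd nn; ring
  rw [h3]
  by_cases hc : (g 1 0 : ℝ) = 0
  · have : (g 1 1 : ℝ) ≠ 0 := by
      intro h
      rw [hc, h] at h2
      simp at h2
    rw [hc]
    have : 0 < (g 1 1 : ℝ) ^ 2 := by positivity
    nlinarith
  · have : 0 < ((g 1 0 : ℝ) * z.im) ^ 2 := by
      have := z.im_ne_zero
      positivity
    nlinarith [sq_nonneg ((g 1 0 : ℝ) * z.re + g 1 1)]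

lemma smul_coe (g : SLZ) (z : ℍ) : ((g • z : ℍ) : ℂ) =
    (((g 0 0 : ℤ) : ℂ) * z + ((g 0 1 : ℤ) : ℂ)) / (((g 1 0 : ℤ) : ℂ) * z + ((g 1 1 : ℤ) : ℂ)) := by
  rw [coe_specialLinearGroup_apply]
  simp

lemma smul_re (g : SLZ) (z : ℍ) : (g • z).re =
    ((g 0 0 : ℝ) * g 1 0 * nn z + ((g 0 0 : ℝ) * g 1 1 + g 0 1 * g 1 0) * z.re + (g 0 1 : ℝ) * g 1 1) / dd g z := by
  rw [← coe_re, smul_coe, Complex.div_re, denom_eq, ← add_div]
  congr 1
  simp only [Complex.add_re, Complex.mul_re, Complex.intCast_re, Complex.intCast_im, coe_re, coe_im,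
    Complex.add_im, Complex.mul_im]
  unfold nn
  ring

lemma smul_im (g : SLZ) (z : ℍ) : (g • z).im = z.im / dd g z := by
  rw [← coe_im, smul_coe, Complex.div_im, denom_eq, ← sub_div]
  congr 1
  simp only [Complex.add_re, Complex.mul_re, Complex.intCast_re, Complex.intCast_im, coe_re, coe_im,
    Complex.add_im, Complex.mul_im]
  linear_combination z.im * det_one' g

lemma smul_nn (g : SLZ) (z : ℍ) : nn (g • z) =
    ((g 0 0 : ℝ) ^ 2 * nn z + 2 * (g 0 0 : ℝ) * g 0 1 * z.re + (g 0 1 : ℝ) ^ 2) / dd g z := by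
  rw [nn_eq, smul_coe, Complex.normSq_div, denom_eq]
  congr 1
  rw [Complex.normSq_apply]
  simp only [Complex.add_re, Complex.mul_re, Complex.intCast_re, Complex.intCast_im, coe_re, coe_im,
    Complex.add_im, Complex.mul_im]
  unfold nn
  ring

/-- Klein coordinates, normalised so that `W` is the square. -/
noncomputable def uu (z : ℍ) : ℝ := (2 * z.re - nn z + 1) / (nn z + 1)
noncomputable def vv (z : ℍ) : ℝ := (2 * z.re + nn z - 1) / (nn z + 1)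

lemma uv_lt (z : ℍ) : uu z ^ 2 + vv z ^ 2 < 2 := by
  have h1 := nn_pos z
  have h2 := re_sq_lt_nn z
  unfold uu vv
  rw [div_pow, div_pow, ← add_div, div_lt_iff₀ (by positivity)]
  nlinarith

/-- the ideal quadrilateral -/
def W : Set ℍ := {z | |z.re| ≤ 1 ∧ |z.re| ≤ nn z}

lemma mem_W (z : ℍ) : z ∈ W ↔ |uu z| ≤ 1 ∧ |vv z| ≤ 1 := by
  have h1 := nn_pos z
  have h3 : 0 < nn z + 1 := by linarith
  simp only [W, Set.mem_ofPred_eq, abs_le]
  unfold uu vv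
  constructor
  · rintro ⟨⟨h4, h5⟩, ⟨h6, h7⟩⟩
    refine ⟨⟨?_, ?_⟩, ⟨?_, ?_⟩⟩
    · rw [le_div_iff₀ h3]; linarith
    · rw [div_le_iff₀ h3]; linarith
    · rw [le_div_iff₀ h3]; linarith
    · rw [div_le_iff₀ h3]; linarith
  · rintro ⟨⟨h4, h5⟩, ⟨h6, h7⟩⟩
    rw [le_div_iff₀ h3] at h4 h6
    rw [div_le_iff₀ h3] at h5 h7
    refine ⟨⟨?_, ?_⟩, ⟨?_, ?_⟩⟩ <;> linarith

/-- the generators -/
def gA : SLZ := ⟨!![1, 2; 0, 1], by simp [Matrix.det_fin_two]⟩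
def gB : SLZ := ⟨!![1, 0; 2, 1], by simp [Matrix.det_fin_two]⟩
def gA' : SLZ := ⟨!![1, -2; 0, 1], by simp [Matrix.det_fin_two]⟩
def gB' : SLZ := ⟨!![1, 0; -2, 1], by simp [Matrix.det_fin_two]⟩

lemma gA_mul : gA * gA' = 1 := by
  ext i j; fin_cases i <;> fin_cases j <;> simp [gA, gA']
lemma gA'_mul : gA' * gA = 1 := by
  ext i j; fin_cases i <;> fin_cases j <;> simp [gA, gA']
lemma gB_mul : gB * gB' = 1 := by
  ext i j; fin_cases i <;> fin_cases j <;> simp [gB, gB']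
lemma gB'_mul : gB' * gB = 1 := by
  ext i j; fin_cases i <;> fin_cases j <;> simp [gB, gB']

lemma gA_inv : gA⁻¹ = gA' := inv_eq_of_mul_eq_one_right gA_mul
lemma gB_inv : gB⁻¹ = gB' := inv_eq_of_mul_eq_one_right gB_mul
lemma gA'_inv : gA'⁻¹ = gA := inv_eq_of_mul_eq_one_right gA'_mul
lemma gB'_inv : gB'⁻¹ = gB := inv_eq_of_mul_eq_one_right gB'_mul

/-- the group -/
abbrev Gm : Subgroup SLZ := CongruenceSubgroup.Gamma 2

lemma gA_mem : gA ∈ Gm := by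
  rw [CongruenceSubgroup.Gamma_mem]; simp [gA]; decide
lemma gB_mem : gB ∈ Gm := by
  rw [CongruenceSubgroup.Gamma_mem]; simp [gB]; decide
lemma gA'_mem : gA' ∈ Gm := by
  rw [CongruenceSubgroup.Gamma_mem]; simp [gA']; decide
lemma gB'_mem : gB' ∈ Gm := by
  rw [CongruenceSubgroup.Gamma_mem]; simp [gB']; decide

lemma parity {g : SLZ} (hg : g ∈ Gm) : Odd (g 0 0) ∧ Even (g 0 1) ∧ Even (g 1 0) ∧ Odd (g 1 1) := by
  rw [CongruenceSubgroup.Gamma_mem] at hg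
  obtain ⟨h1, h2, h3, h4⟩ := hg
  refine ⟨?_, ?_, ?_, ?_⟩
  · rw [← ZMod.intCast_eq_one_iff_odd]; exact h1
  · rw [← ZMod.intCast_eq_zero_iff_even]; exact h2
  · rw [← ZMod.intCast_eq_zero_iff_even]; exact h3
  · rw [← ZMod.intCast_eq_one_iff_odd]; exact h4

lemma nn_gA (z : ℍ) : nn (gA • z) = nn z + 4 * z.re + 4 ∧ (gA • z).re = z.re + 2 := by
  rw [smul_nn, smul_re]
  unfold dd
  simp [gA]
  ring

lemma nn_gA' (z : ℍ) : nn (gA' • z) = nn z - 4 * z.re + 4 ∧ (gA' • z).re = z.re - 2 := by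
  rw [smul_nn, smul_re]
  unfold dd
  simp [gA']
  constructor <;> ring

lemma nn_gB (z : ℍ) : 0 < 4 * nn z + 4 * z.re + 1 ∧ nn (gB • z) = nn z / (4 * nn z + 4 * z.re + 1) ∧
    (gB • z).re = (z.re + 2 * nn z) / (4 * nn z + 4 * z.re + 1) := by
  have h0 := dd_pos gB z
  have h : dd gB z = 4 * nn z + 4 * z.re + 1 := by
    unfold dd; simp [gB]; ring
  rw [smul_nn, smul_re, h]
  rw [h] at h0
  refine ⟨h0, ?_, ?_⟩
  · simp [gB]
  · simp [gB]; ring

lemma nn_gB' (z : ℍ) : 0 < 4 * nn z - 4 * z.re + 1 ∧ nn (gB' • z) = nn z / (4 * nn z - 4 * z.re + 1) ∧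
    (gB' • z).re = (z.re - 2 * nn z) / (4 * nn z - 4 * z.re + 1) := by
  have h0 := dd_pos gB' z
  have h : dd gB' z = 4 * nn z - 4 * z.re + 1 := by
    unfold dd; simp [gB']; ring
  rw [smul_nn, smul_re, h]
  rw [h] at h0
  refine ⟨h0, ?_, ?_⟩
  · simp [gB']
  · simp [gB']; ring

lemma two_vv_lt (z : ℍ) : 0 < 3 - 2 * vv z ∧ 0 < 3 + 2 * vv z ∧ 0 < 3 - 2 * uu z ∧ 0 < 3 + 2 * uu z := by
  have h := uv_lt z
  refine ⟨?_, ?_, ?_, ?_⟩ <;> nlinarith [sq_nonneg (uu z), sq_nonneg (vv z), sq_nonneg (2 * vv z - 3),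
    sq_nonneg (2 * vv z + 3), sq_nonneg (2 * uu z - 3), sq_nonneg (2 * uu z + 3)]

lemma uv_gA (z : ℍ) : uu (gA • z) = - vv z / (2 * uu z + 3) ∧ vv (gA • z) = (3 * uu z + 4) / (2 * uu z + 3) := by
  obtain ⟨h1, h2⟩ := nn_gA z
  have h3 := nn_pos z
  have h4 := re_sq_lt_nn z
  have h5 : 0 < nn z + 4 * z.re + 4 + 1 := by nlinarith [sq_nonneg (z.re + 2)]
  have h6 := (two_vv_lt z).2.2.2
  unfold uu vv at *
  rw [h1, h2]
  have h7 : 0 < nn z + 1 := by linarith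
  have h8 : 2 * ((2 * z.re - nn z + 1) / (nn z + 1)) + 3 = (nn z + 4 * z.re + 4 + 1) / (nn z + 1) := by
    field_simp; ring
  rw [h8]
  constructor
  · field_simp; ring
  · field_simp; ring

lemma uv_gA' (z : ℍ) : uu (gA' • z) = (3 * vv z - 4) / (3 - 2 * vv z) ∧ vv (gA' • z) = - uu z / (3 - 2 * vv z) := by
  obtain ⟨h1, h2⟩ := nn_gA' z
  have h3 := nn_pos z
  have h4 := re_sq_lt_nn z
  have h5 : 0 < nn z - 4 * z.re + 4 + 1 := by nlinarith [sq_nonneg (z.re - 2)]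
  unfold uu vv at *
  rw [h1, h2]
  have h7 : 0 < nn z + 1 := by linarith
  have h8 : 3 - 2 * ((2 * z.re + nn z - 1) / (nn z + 1)) = (nn z - 4 * z.re + 4 + 1) / (nn z + 1) := by
    field_simp; ring
  rw [h8]
  constructor
  · field_simp; ring
  · field_simp; ring

lemma uv_gB (z : ℍ) : uu (gB • z) = (3 * vv z + 4) / (2 * vv z + 3) ∧ vv (gB • z) = - uu z / (2 * vv z + 3) := by
  obtain ⟨h0, h1, h2⟩ := nn_gB z
  have h3 := nn_pos z
  unfold uu vv
  rw [h1, h2]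
  generalize nn z = N at *
  generalize z.re = x at *
  obtain ⟨D, hD⟩ : ∃ D, D = 4 * N + 4 * x + 1 := ⟨_, rfl⟩
  rw [← hD] at h0 ⊢
  obtain rfl : x = (D - 4 * N - 1) / 4 := by linarith
  have h7 : 0 < N + 1 := by linarith
  have h8 : 2 * ((2 * ((D - 4 * N - 1) / 4) + N - 1) / (N + 1)) + 3 = (D + N) / (N + 1) := by
    field_simp; ring
  have h9 : N / D + 1 = (D + N) / D := by
    field_simp; ring
  have h10 : 0 < D + N := by linarith
  rw [h8, h9]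
  constructor
  · field_simp; ring
  · field_simp; ring

lemma uv_gB' (z : ℍ) : uu (gB' • z) = - vv z / (3 - 2 * uu z) ∧ vv (gB' • z) = (3 * uu z - 4) / (3 - 2 * uu z) := by
  obtain ⟨h0, h1, h2⟩ := nn_gB' z
  have h3 := nn_pos z
  unfold uu vv
  rw [h1, h2]
  generalize nn z = N at *
  generalize z.re = x at *
  obtain ⟨D, hD⟩ : ∃ D, D = 4 * N - 4 * x + 1 := ⟨_, rfl⟩
  rw [← hD] at h0 ⊢
  obtain rfl : x = (4 * N + 1 - D) / 4 := by linarith
  have h7 : 0 < N + 1 := by linarith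
  have h8 : 3 - 2 * ((2 * ((4 * N + 1 - D) / 4) - N + 1) / (N + 1)) = (D + N) / (N + 1) := by
    field_simp; ring
  have h9 : N / D + 1 = (D + N) / D := by
    field_simp; ring
  have h10 : 0 < D + N := by linarith
  rw [h8, h9]
  constructor
  · field_simp; ring
  · field_simp; ring

end Pool.Agent.Helper42.Tiling
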