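import Mathlib
import Pool.Agent.Helper42.Tiling.Gam

/-!
Separation and covering for the quadrilateral `W` under `Γ(2)`.
-/

namespace Pool.Agent.Helper42.Tiling

open UpperHalfPlane Matrix


/-- two elements act in the same way -/
def SameAct (g h : SLZ) : Prop := ∀ w : ℍ, g • w = h • w

lemma sameAct_of_entries (g h : SLZ) (s : ℤ) (hs : s = 1 ∨ s = -1) (h00 : g 0 0 = s * h 0 0)
    (h01 : g 0 1 = s * h 0 1) (h10 : g 1 0 = s * h 1 0) (h11 : g 1 1 = s * h 1 1) : SameAct g h := by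
  rcases hs with rfl | rfl
  · have : g = h := by
      ext i j; fin_cases i <;> fin_cases j <;> simp_all
    intro w; rw [this]
  · have : g = -h := by
      ext i j; fin_cases i <;> fin_cases j <;> simp_all
    intro w; rw [this, ModularGroup.SL_neg_smul]

lemma expand (c d x N : ℝ) : c ^ 2 * N + 2 * c * d * x + d ^ 2 =
    c ^ 2 * (N - |x|) + 2 * (c * d * x + |c| * |d| * |x|) + (1 - |x|) * (d ^ 2 - 1) +
      |x| * ((|c| - |d|) ^ 2 - 1) + 1 := by
  have h1 := sq_abs c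
  have h2 := sq_abs d
  linear_combination (-|x|) * h1 + (-|x|) * h2

lemma int_facts {c d : ℤ} (hc : Even c) (hd : Odd d) :
    0 ≤ (d : ℝ) ^ 2 - 1 ∧ 0 ≤ (|(c : ℝ)| - |(d : ℝ)|) ^ 2 - 1 := by
  have h1 : (1 : ℤ) ≤ d ^ 2 := by
    have : d ≠ 0 := by rintro rfl; simp at hd
    have := sq_pos_of_ne_zero this
    omega
  have h2 : (1 : ℤ) ≤ (|c| - |d|) ^ 2 := by
    have h3 : Odd (|c| - |d|) := by
      apply Even.sub_odd
      · exact even_abs.2 hc
      · exact odd_abs.2 hd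
    have : |c| - |d| ≠ 0 := by
      intro h; rw [h] at h3; simp at h3
    have := sq_pos_of_ne_zero this
    omega
  constructor
  · have : ((1 : ℤ) : ℝ) ≤ ((d ^ 2 : ℤ) : ℝ) := by exact_mod_cast h1
    push_cast at this
    linarith
  · have : ((1 : ℤ) : ℝ) ≤ (((|c| - |d|) ^ 2 : ℤ) : ℝ) := by exact_mod_cast h2
    push_cast at this
    linarith

lemma dd_ge_one {g : SLZ} (hg : g ∈ Gm) {z : ℍ} (hz : z ∈ W) : 1 ≤ dd g z := by
  obtain ⟨h1, h2, h3, h4⟩ := parity hg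
  obtain ⟨h5, h6⟩ := int_facts h3 h4
  obtain ⟨h7, h8⟩ := hz
  have h9 : 0 ≤ (g 1 0 : ℝ) * (g 1 1 : ℝ) * z.re + |(g 1 0 : ℝ)| * |(g 1 1 : ℝ)| * |z.re| := by
    rw [← abs_mul, ← abs_mul]
    linarith [neg_abs_le ((g 1 0 : ℝ) * (g 1 1 : ℝ) * z.re)]
  unfold dd
  rw [expand]
  have h10 : 0 ≤ (g 1 0 : ℝ) ^ 2 * (nn z - |z.re|) := mul_nonneg (sq_nonneg _) (by linarith)
  have h11 : 0 ≤ (1 - |z.re|) * ((g 1 1 : ℝ) ^ 2 - 1) := mul_nonneg (by linarith) h5
  have h12 : 0 ≤ |z.re| * ((|(g 1 0 : ℝ)| - |(g 1 1 : ℝ)|) ^ 2 - 1) := mul_nonneg (abs_nonneg _) h6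
  linarith

lemma dd_eq_one {g : SLZ} (hg : g ∈ Gm) {z : ℍ} (hz : z ∈ W) (h : dd g z = 1) (hc : g 1 0 ≠ 0) :
    nn z = |z.re| ∧ 0 < |z.re| ∧ |z.re| < 1 ∧ |g 1 1| = 1 ∧ |g 1 0| = 2 ∧
      (g 1 0 : ℝ) * (g 1 1 : ℝ) * z.re = - (2 * |z.re|) := by
  obtain ⟨h1, h2, h3, h4⟩ := parity hg
  obtain ⟨h5, h6⟩ := int_facts h3 h4
  obtain ⟨h7, h8⟩ := hz
  have h9 : 0 ≤ (g 1 0 : ℝ) * (g 1 1 : ℝ) * z.re + |(g 1 0 : ℝ)| * |(g 1 1 : ℝ)| * |z.re| := by
    rw [← abs_mul, ← abs_mul]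
    linarith [neg_abs_le ((g 1 0 : ℝ) * (g 1 1 : ℝ) * z.re)]
  unfold dd at h
  rw [expand] at h
  have h10 : 0 ≤ (g 1 0 : ℝ) ^ 2 * (nn z - |z.re|) := mul_nonneg (sq_nonneg _) (by linarith)
  have h11 : 0 ≤ (1 - |z.re|) * ((g 1 1 : ℝ) ^ 2 - 1) := mul_nonneg (by linarith) h5
  have h12 : 0 ≤ |z.re| * ((|(g 1 0 : ℝ)| - |(g 1 1 : ℝ)|) ^ 2 - 1) := mul_nonneg (abs_nonneg _) h6
  have e1 : (g 1 0 : ℝ) ^ 2 * (nn z - |z.re|) = 0 := by linarith
  have e2 : (1 - |z.re|) * ((g 1 1 : ℝ) ^ 2 - 1) = 0 := by linarith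
  have e3 : |z.re| * ((|(g 1 0 : ℝ)| - |(g 1 1 : ℝ)|) ^ 2 - 1) = 0 := by linarith
  have e4 : (g 1 0 : ℝ) * (g 1 1 : ℝ) * z.re + |(g 1 0 : ℝ)| * |(g 1 1 : ℝ)| * |z.re| = 0 := by linarith
  have hc' : (g 1 0 : ℝ) ≠ 0 := by exact_mod_cast hc
  have f1 : nn z = |z.re| := by
    rcases mul_eq_zero.1 e1 with h | h
    · exact absurd (pow_eq_zero_iff (two_ne_zero) |>.1 h) hc'
    · linarith
  have f2 := re_sq_lt_nn z
  have f3 := nn_pos z
  rw [f1] at f2 f3
  have f4 : |z.re| < 1 := by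
    rw [← sq_abs] at f2
    nlinarith
  have f5 : (g 1 1 : ℝ) ^ 2 = 1 := by
    rcases mul_eq_zero.1 e2 with h | h <;> linarith
  have f6 : (|(g 1 0 : ℝ)| - |(g 1 1 : ℝ)|) ^ 2 = 1 := by
    rcases mul_eq_zero.1 e3 with h | h <;> linarith
  have f7 : |g 1 1| = 1 := by
    have h13 : (g 1 1) ^ 2 = 1 := by exact_mod_cast f5
    have := (sq_eq_sq_iff_abs_eq_abs (g 1 1) 1).1 (by rw [h13]; norm_num)
    rwa [abs_one] at this
  have f8 : (|g 1 0| - |g 1 1|) ^ 2 = 1 := by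
    have : (((|g 1 0| - |g 1 1|) ^ 2 : ℤ) : ℝ) = ((1 : ℤ) : ℝ) := by push_cast; linarith
    exact_mod_cast this
  have f9 : |g 1 0| = 2 := by
    rw [f7] at f8
    have h14 : (|g 1 0| - 2) * |g 1 0| = 0 := by nlinarith
    rcases mul_eq_zero.1 h14 with h | h
    · omega
    · exact absurd (abs_eq_zero.1 h) hc
  refine ⟨f1, f3, f4, f7, f9, ?_⟩
  have g1 : |(g 1 0 : ℝ)| = 2 := by
    have : ((|g 1 0| : ℤ) : ℝ) = 2 := by rw [f9]; norm_num
    simpa using this
  have g2 : |(g 1 1 : ℝ)| = 1 := by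
    have : ((|g 1 1| : ℤ) : ℝ) = 1 := by rw [f7]; norm_num
    simpa using this
  rw [g1, g2] at e4
  linarith

lemma inv_entries (g : SLZ) : g⁻¹ 0 0 = g 1 1 ∧ g⁻¹ 0 1 = - g 0 1 ∧ g⁻¹ 1 0 = - g 1 0 ∧ g⁻¹ 1 1 = g 0 0 := by
  have h := Matrix.SpecialLinearGroup.SL2_inv_expl g
  refine ⟨?_, ?_, ?_, ?_⟩ <;> rw [h] <;> simp

lemma int_of_abs_eq {n : ℤ} {k : ℤ} (h : |n| = k) : n = k ∨ n = -k := by
  rcases abs_choice n with h1 | h1 <;> omega

/-- The separation lemma. -/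
theorem separation {g : SLZ} (hg : g ∈ Gm) {z : ℍ} (hz : z ∈ W) (hgz : g • z ∈ W) :
    SameAct g 1 ∨ (uu z = -1 ∧ SameAct g gA) ∨ (vv z = 1 ∧ SameAct g gA') ∨
      (vv z = -1 ∧ SameAct g gB) ∨ (uu z = 1 ∧ SameAct g gB') := by
  have h1 := dd_ge_one hg hz
  have h2 : dd g z = 1 := by
    have h3 := dd_ge_one (Gm.inv_mem hg) hgz
    have h4 : (g⁻¹ • (g • z)).im = (g • z).im / dd g⁻¹ (g • z) := smul_im _ _
    rw [inv_smul_smul, smul_im g z] at h4
    have h5 := z.im_pos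
    have h6 : z.im * (dd g z * dd g⁻¹ (g • z)) = z.im := by
      have h7 : dd g z ≠ 0 := by positivity
      have h8 : dd g⁻¹ (g • z) ≠ 0 := by positivity
      field_simp at h4
      rw [h4, mul_one]
    have h7 : dd g z * dd g⁻¹ (g • z) = 1 := by
      have := mul_left_cancel₀ h5.ne' (h6.trans (mul_one _).symm)
      exact this
    nlinarith
  obtain ⟨p1, p2, p3, p4⟩ := parity hg
  have hdet := det_one g
  have hx := hz.1
  have hN := hz.2
  have hgx := hgz.1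
  rw [smul_re, h2, div_one] at hgx
  have hu : uu z = 1 ↔ z.re = nn z := by
    have := nn_pos z
    unfold uu; rw [div_eq_iff (by positivity)]; constructor <;> intro h <;> linarith
  have hu' : uu z = -1 ↔ z.re = -1 := by
    have := nn_pos z
    unfold uu; rw [div_eq_iff (by positivity)]; constructor <;> intro h <;> linarith
  have hv : vv z = 1 ↔ z.re = 1 := by
    have := nn_pos z
    unfold vv; rw [div_eq_iff (by positivity)]; constructor <;> intro h <;> linarith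
  have hv' : vv z = -1 ↔ -z.re = nn z := by
    have := nn_pos z
    unfold vv; rw [div_eq_iff (by positivity)]; constructor <;> intro h <;> linarith
  by_cases hc : g 1 0 = 0
  · rw [hc] at hdet hgx
    have had : g 0 0 * g 1 1 = 1 := by linarith
    obtain ⟨s, hs, hs0, hs1⟩ : ∃ s : ℤ, (s = 1 ∨ s = -1) ∧ g 0 0 = s ∧ g 1 1 = s := by
      rcases Int.eq_one_or_neg_one_of_mul_eq_one' had with ⟨ha, hd⟩ | ⟨ha, hd⟩
      · exact ⟨1, Or.inl rfl, ha, hd⟩
      · exact ⟨-1, Or.inr rfl, ha, hd⟩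
    rw [hs0, hs1] at hgx
    have hss : (s : ℝ) * s = 1 := by rcases hs with rfl | rfl <;> norm_num
    obtain ⟨k, hk⟩ := p2
    -- b = 2 k
    have hgx' : |z.re + 2 * (s * k : ℤ)| ≤ 1 := by
      have : (s : ℝ) * ((0 : ℤ) : ℝ) * nn z + ((s : ℝ) * s + (g 0 1 : ℝ) * ((0 : ℤ) : ℝ)) * z.re + (g 0 1 : ℝ) * s
          = z.re + 2 * (s * k : ℤ) := by
        rw [hk, hss]; push_cast; ring
      rw [this] at hgx; exact hgx
    rw [abs_le] at hgx' hx
    have hk1 : (-1 : ℤ) ≤ s * k ∧ s * k ≤ 1 := by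
      constructor
      · have : (-2 : ℝ) < ((s * k : ℤ) : ℝ) := by linarith
        have : (-2 : ℤ) < s * k := by exact_mod_cast this
        omega
      · have : ((s * k : ℤ) : ℝ) < 2 := by linarith
        have : s * k < (2 : ℤ) := by exact_mod_cast this
        omega
    have hcases : s * k = -1 ∨ s * k = 0 ∨ s * k = 1 := by omega
    have hk' : g 0 1 = s * (2 * (s * k)) := by
      rw [hk]; rcases hs with rfl | rfl <;> ring
    rcases hcases with h | h | h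
    · right; right; left
      rw [h] at hgx' hk'
      push_cast at hgx'
      refine ⟨hv.2 (by linarith), sameAct_of_entries g gA' s hs ?_ ?_ ?_ ?_⟩
      · rw [hs0]; simp [gA']
      · rw [hk']; simp [gA']
      · rw [hc]; simp [gA']
      · rw [hs1]; simp [gA']
    · left
      rw [h] at hk'
      refine sameAct_of_entries g 1 s hs ?_ ?_ ?_ ?_
      · rw [hs0]; simp
      · rw [hk']; simp
      · rw [hc]; simp
      · rw [hs1]; simp
    · right; left
      rw [h] at hgx' hk'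
      push_cast at hgx'
      refine ⟨hu'.2 (by linarith), sameAct_of_entries g gA s hs ?_ ?_ ?_ ?_⟩
      · rw [hs0]; simp [gA]
      · rw [hk']; simp [gA]
      · rw [hc]; simp [gA]
      · rw [hs1]; simp [gA]
  · obtain ⟨f1, f2, f3, f4, f5, f6⟩ := dd_eq_one hg hz h2 hc
    obtain ⟨s, hs, hs1⟩ : ∃ s : ℤ, (s = 1 ∨ s = -1) ∧ g 1 1 = s := by
      rcases int_of_abs_eq f4 with h | h
      · exact ⟨1, Or.inl rfl, h⟩
      · exact ⟨-1, Or.inr rfl, h⟩
    obtain ⟨e, he, he1⟩ : ∃ e : ℤ, (e = 1 ∨ e = -1) ∧ g 1 0 = s * (2 * e) := by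
      rcases int_of_abs_eq f5 with h | h <;> rcases hs with rfl | rfl
      · exact ⟨1, Or.inl rfl, by rw [h]; ring⟩
      · exact ⟨-1, Or.inr rfl, by rw [h]; ring⟩
      · exact ⟨-1, Or.inr rfl, by rw [h]; ring⟩
      · exact ⟨1, Or.inl rfl, by rw [h]; ring⟩
    have hss : s * s = 1 := by rcases hs with rfl | rfl <;> norm_num
    have hssr : (s : ℝ) * s = 1 := by exact_mod_cast hss
    have hee : (e : ℝ) * e = 1 := by rcases he with rfl | rfl <;> norm_num
    -- x = - e |x|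
    have hxe : z.re = - (e * |z.re|) := by
      rw [he1, hs1] at f6
      push_cast at f6
      have h7 : (s : ℝ) * (2 * e) * s * z.re = 2 * e * z.re := by
        linear_combination (2 * (e : ℝ) * z.re) * hssr
      rw [h7] at f6
      have h8 : (e : ℝ) * (2 * e * z.re) = e * (-(2 * |z.re|)) := by rw [f6]
      have h9 : (e : ℝ) * (2 * e * z.re) = 2 * z.re := by linear_combination (2 * z.re) * hee
      rw [h9] at h8
      linarith
    -- a = s (1 + 2 e s b)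
    have ha : g 0 0 = s * (1 + 2 * e * (s * g 0 1)) := by
      rw [hs1, he1] at hdet
      have : s * (g 0 0 * s - g 0 1 * (s * (2 * e))) = s * 1 := by rw [hdet]
      linear_combination this - (g 0 0) * hss
    obtain ⟨k, hk⟩ := p2
    have hgx' : |e * |z.re| + 2 * (s * k : ℤ)| ≤ 1 := by
      have h7 : (g 0 0 : ℝ) * (g 1 0 : ℝ) * nn z + ((g 0 0 : ℝ) * (g 1 1 : ℝ) + (g 0 1 : ℝ) * (g 1 0 : ℝ)) * z.re
          + (g 0 1 : ℝ) * (g 1 1 : ℝ) = e * |z.re| + 2 * (s * k : ℤ) := by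
        have ha' : (g 0 0 : ℝ) = s * (1 + 2 * e * (s * g 0 1)) := by exact_mod_cast ha
        have hk' : (g 0 1 : ℝ) = k + k := by exact_mod_cast hk
        have he1' : (g 1 0 : ℝ) = s * (2 * e) := by exact_mod_cast he1
        have hs1' : (g 1 1 : ℝ) = s := by exact_mod_cast hs1
        rw [ha', he1', hs1', hk', f1]
        push_cast
        generalize |z.re| = X at *
        rw [hxe]
        have hs3 : (s : ℝ) * s * s = s := by rw [hssr, one_mul]
        rcases hs with rfl | rfl <;> rcases he with rfl | rfl <;> push_cast <;> ring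
      rw [h7] at hgx; exact hgx
    rw [abs_le] at hgx'
    have hk0 : s * k = 0 := by
      have h7 : -1 < (e : ℝ) * |z.re| ∧ (e : ℝ) * |z.re| < 1 := by
        rcases he with rfl | rfl
        · constructor <;> push_cast <;> linarith
        · constructor <;> push_cast <;> linarith
      have h8 : (-1 : ℝ) < ((s * k : ℤ) : ℝ) := by linarith
      have h9 : ((s * k : ℤ) : ℝ) < 1 := by linarith
      have h8' : (-1 : ℤ) < s * k := by exact_mod_cast h8
      have h9' : s * k < (1 : ℤ) := by exact_mod_cast h9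
      omega
    have hb : g 0 1 = 0 := by
      have : k = 0 := by
        rcases hs with rfl | rfl <;> omega
      rw [hk, this]; ring
    have ha0 : g 0 0 = s := by rw [ha, hb]; ring
    rcases he with rfl | rfl
    · right; right; right; left
      refine ⟨hv'.2 ?_, sameAct_of_entries g gB s hs ?_ ?_ ?_ ?_⟩
      · rw [f1, hxe]; push_cast; simp [abs_neg]
      · rw [ha0]; simp [gB]
      · rw [hb]; simp [gB]
      · rw [he1]; simp [gB]
      · rw [hs1]; simp [gB]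
    · right; right; right; right
      refine ⟨hu.2 ?_, sameAct_of_entries g gB' s hs ?_ ?_ ?_ ?_⟩
      · rw [f1]; rw [hxe]; push_cast; simp
      · rw [ha0]; simp [gB']
      · rw [hb]; simp [gB']
      · rw [he1]; simp [gB']
      · rw [hs1]; simp [gB']

lemma exists_max (z : ℍ) : ∃ g ∈ Gm, ∀ g' ∈ Gm, (g' • z).im ≤ (g • z).im := by
  let s : Set (Fin 2 → ℤ) := {p | ∃ g ∈ Gm, p = ![g 1 0, g 1 1]}
  have hs : s.Nonempty := ⟨_, 1, Gm.one_mem, rfl⟩
  obtain ⟨p, ⟨g, hg, hp⟩, hmin⟩ :=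
    Filter.Tendsto.exists_within_forall_le hs (ModularGroup.tendsto_normSq_coprime_pair z)
  refine ⟨g, hg, fun g' hg' => ?_⟩
  have h1 := hmin _ ⟨g', hg', rfl⟩
  rw [hp] at h1
  simp only [Matrix.cons_val_zero, Matrix.cons_val_one] at h1
  rw [denom_eq, denom_eq] at h1
  rw [smul_im, smul_im]
  exact div_le_div_of_nonneg_left z.im_pos.le (dd_pos g z) h1

lemma T_sq : ModularGroup.T ^ 2 = gA := by
  ext i j; fin_cases i <;> fin_cases j <;> simp [gA, ModularGroup.T, pow_two]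

lemma T_zpow_mem (k : ℤ) : ModularGroup.T ^ (2 * k) ∈ Gm := by
  rw [_root_.zpow_mul]
  have : ModularGroup.T ^ (2 : ℤ) = gA := by
    rw [← T_sq]; rfl
  rw [this]
  exact Gm.zpow_mem gA_mem k

/-- covering -/
theorem covering (z : ℍ) : ∃ g ∈ Gm, g • z ∈ W ∧ |vv (g • z)| < 1 := by
  obtain ⟨g, hg, hmax⟩ := exists_max z
  obtain ⟨k, hk⟩ : ∃ k : ℤ, |(g • z).re + 2 * k| ≤ 1 := by
    refine ⟨-round ((g • z).re / 2), ?_⟩
    have := abs_sub_round ((g • z).re / 2)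
    rw [abs_le] at this ⊢
    push_cast
    constructor <;> linarith [this.1, this.2]
  let g2 : SLZ := ModularGroup.T ^ (2 * k) * g
  have hg2 : g2 ∈ Gm := Gm.mul_mem (T_zpow_mem k) hg
  have hre : (g2 • z).re = (g • z).re + 2 * k := by
    rw [show g2 • z = ModularGroup.T ^ (2 * k) • (g • z) from mul_smul _ _ _, ModularGroup.re_T_zpow_smul]
    push_cast; ring
  have him : (g2 • z).im = (g • z).im := by
    rw [show g2 • z = ModularGroup.T ^ (2 * k) • (g • z) from mul_smul _ _ _, ModularGroup.im_T_zpow_smul]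
  have key : ∀ h ∈ Gm, 1 ≤ dd h (g2 • z) := by
    intro h hh
    have h1 := hmax (h * g2) (Gm.mul_mem hh hg2)
    rw [mul_smul, smul_im h, ← him] at h1
    have h2 := (g2 • z).im_pos
    have h3 := dd_pos h (g2 • z)
    rw [div_le_iff₀ h3] at h1
    nlinarith
  have hW : g2 • z ∈ W := by
    refine ⟨by rw [hre]; exact hk, ?_⟩
    have h1 := key gB gB_mem
    have h2 := key gB' gB'_mem
    have e1 : dd gB (g2 • z) = 4 * nn (g2 • z) + 4 * (g2 • z).re + 1 := by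
      unfold dd; simp [gB]; ring
    have e2 : dd gB' (g2 • z) = 4 * nn (g2 • z) - 4 * (g2 • z).re + 1 := by
      unfold dd; simp [gB']; ring
    rw [abs_le]
    constructor <;> linarith
  have hW' := (mem_W _).1 hW
  by_cases h : |vv (g2 • z)| < 1
  · exact ⟨g2, hg2, hW, h⟩
  · have h1 : |vv (g2 • z)| = 1 := le_antisymm hW'.2 (not_lt.1 h)
    have h2 := uv_lt (g2 • z)
    have h3 : |uu (g2 • z)| < 1 := by
      have : vv (g2 • z) ^ 2 = 1 := by rw [← sq_abs, h1]; norm_num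
      rw [← sq_lt_one_iff_abs_lt_one]
      linarith
    rcases (abs_eq (zero_le_one' ℝ)).1 h1 with h4 | h4
    · refine ⟨gA' * g2, Gm.mul_mem gA'_mem hg2, ?_⟩
      rw [mul_smul, mem_W, (uv_gA' _).1, (uv_gA' _).2, h4]
      norm_num
      exact ⟨h3.le, h3⟩
    · refine ⟨gB * g2, Gm.mul_mem gB_mem hg2, ?_⟩
      rw [mul_smul, mem_W, (uv_gB _).1, (uv_gB _).2, h4]
      norm_num
      exact ⟨h3.le, h3⟩

end Pool.Agent.Helper42.Tiling
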