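import Mathlib
import Pool.Agent.Helper42.Tiling.Gam

/-!
The Klein disk model of the upper half plane and the sliding homeomorphism.
-/

namespace Pool.Agent.Helper42.Tiling

open UpperHalfPlane

/-- the disk -/
def Dk : Set (ℝ × ℝ) := {p | p.1 ^ 2 + p.2 ^ 2 < 2}

lemma two_pos' {p : ℝ × ℝ} (hp : p ∈ Dk) : 0 < 2 - p.2 + p.1 := by
  have h : p.1 ^ 2 + p.2 ^ 2 < 2 := hp
  nlinarith [sq_nonneg (p.1 + p.2), sq_nonneg (2 + (p.1 - p.2))]

lemma four_pos {p : ℝ × ℝ} (hp : p ∈ Dk) : 0 < 4 - 2 * p.1 ^ 2 - 2 * p.2 ^ 2 := by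
  have h : p.1 ^ 2 + p.2 ^ 2 < 2 := hp
  linarith

lemma continuous_nn : Continuous nn := by
  unfold nn
  exact (UpperHalfPlane.continuous_re.pow 2).add (UpperHalfPlane.continuous_im.pow 2)

lemma continuous_uu : Continuous uu := by
  unfold uu
  refine Continuous.div ?_ ?_ ?_
  · exact ((continuous_const.mul UpperHalfPlane.continuous_re).sub continuous_nn).add continuous_const
  · exact continuous_nn.add continuous_const
  · intro z; have := nn_pos z; positivity

lemma continuous_vv : Continuous vv := by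
  unfold vv
  refine Continuous.div ?_ ?_ ?_
  · exact ((continuous_const.mul UpperHalfPlane.continuous_re).add continuous_nn).sub continuous_const
  · exact continuous_nn.add continuous_const
  · intro z; have := nn_pos z; positivity

/-- inverse of the Klein coordinates -/
noncomputable def invK (p : Dk) : ℍ :=
  ⟨⟨(p.1.1 + p.1.2) / (2 - p.1.2 + p.1.1), Real.sqrt (4 - 2 * p.1.1 ^ 2 - 2 * p.1.2 ^ 2) / (2 - p.1.2 + p.1.1)⟩,
    div_pos (Real.sqrt_pos.2 (four_pos p.2)) (two_pos' p.2)⟩

lemma invK_re (p : Dk) : (invK p).re = (p.1.1 + p.1.2) / (2 - p.1.2 + p.1.1) := rfl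
lemma invK_im (p : Dk) : (invK p).im = Real.sqrt (4 - 2 * p.1.1 ^ 2 - 2 * p.1.2 ^ 2) / (2 - p.1.2 + p.1.1) := rfl

lemma invK_nn (p : Dk) : nn (invK p) = (2 + p.1.2 - p.1.1) / (2 - p.1.2 + p.1.1) := by
  have h1 := two_pos' p.2
  have h2 := four_pos p.2
  unfold nn
  rw [invK_re, invK_im, div_pow, div_pow, Real.sq_sqrt h2.le]
  field_simp
  ring

lemma invK_uu (p : Dk) : uu (invK p) = p.1.1 := by
  have h1 := two_pos' p.2
  unfold uu
  rw [invK_nn, invK_re]
  have h2 : (2 + p.1.2 - p.1.1) / (2 - p.1.2 + p.1.1) + 1 = 4 / (2 - p.1.2 + p.1.1) := by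
    field_simp; ring
  rw [h2]
  field_simp
  ring

lemma invK_vv (p : Dk) : vv (invK p) = p.1.2 := by
  have h1 := two_pos' p.2
  unfold vv
  rw [invK_nn, invK_re]
  have h2 : (2 + p.1.2 - p.1.1) / (2 - p.1.2 + p.1.1) + 1 = 4 / (2 - p.1.2 + p.1.1) := by
    field_simp; ring
  rw [h2]
  field_simp
  ring

lemma invK_continuous : Continuous invK := by
  unfold invK
  apply Continuous.upperHalfPlaneMk
  have h1 : Continuous fun p : Dk => 2 - p.1.2 + p.1.1 := by fun_prop
  have h2 : ∀ p : Dk, 2 - p.1.2 + p.1.1 ≠ 0 := fun p => (two_pos' p.2).ne'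
  have h3 : Continuous fun p : Dk => (p.1.1 + p.1.2) / (2 - p.1.2 + p.1.1) :=
    Continuous.div (by fun_prop) h1 h2
  have h4 : Continuous fun p : Dk => Real.sqrt (4 - 2 * p.1.1 ^ 2 - 2 * p.1.2 ^ 2) / (2 - p.1.2 + p.1.1) :=
    Continuous.div (by fun_prop) h1 h2
  exact Complex.equivRealProdCLM.symm.continuous.comp (h3.prodMk h4)

/-- Klein coordinates as a homeomorphism -/
noncomputable def kl : ℍ ≃ₜ Dk where
  toFun z := ⟨(uu z, vv z), uv_lt z⟩
  invFun := invK
  left_inv := by
    intro z
    have h1 := nn_pos z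
    have h0 : (0:ℝ) < nn z + 1 := by linarith
    have e1 : 2 - vv z + uu z = 4 / (nn z + 1) := by
      unfold uu vv; field_simp; ring
    have e2 : uu z + vv z = 4 * z.re / (nn z + 1) := by
      unfold uu vv; field_simp; ring
    have e3 : 4 - 2 * uu z ^ 2 - 2 * vv z ^ 2 = (4 * z.im / (nn z + 1)) ^ 2 := by
      have : nn z = z.re ^ 2 + z.im ^ 2 := rfl
      unfold uu vv
      field_simp
      rw [this]; ring
    apply UpperHalfPlane.ext_re_im
    · rw [invK_re]
      simp only
      rw [e1, e2]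
      field_simp
    · rw [invK_im]
      simp only
      rw [e1, e3, Real.sqrt_sq (by have := z.im_pos; positivity)]
      field_simp
  right_inv := by
    intro p
    apply Subtype.ext
    exact Prod.ext (invK_uu p) (invK_vv p)
  continuous_toFun := by
    apply Continuous.subtype_mk
    exact continuous_uu.prodMk continuous_vv
  continuous_invFun := invK_continuous

lemma kl_ext {z w : ℍ} (h1 : uu z = uu w) (h2 : vv z = vv w) : z = w := by
  apply kl.injective
  apply Subtype.ext
  exact Prod.ext h1 h2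

/-- parameters of the slide -/
noncomputable def rr (u : ℝ) : ℝ := max 0 (min 1 (3 - 2 * |u|))
noncomputable def mu (u : ℝ) : ℝ := max 0 (min 1 ((7 - 5 * |u|) / 2))

lemma rr_nonneg (u : ℝ) : 0 ≤ rr u := le_max_left _ _
lemma mu_nonneg (u : ℝ) : 0 ≤ mu u := le_max_left _ _
lemma mu_le (u : ℝ) : mu u ≤ 1 := max_le zero_le_one (min_le_left _ _)

/-- the slide in one coordinate, with parameters `m ∈ [0,1]`, `r ≥ 0` -/
noncomputable def sl (m r v : ℝ) : ℝ := v + m * max 0 (min (v + r) ((r - v) / 2))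
noncomputable def sl' (m r w : ℝ) : ℝ := w - m * max 0 (min ((w + r) / (1 + m)) ((r - w) / (2 - m)))

lemma sl_out {m r v : ℝ} (h : v ≤ -r ∨ r ≤ v) : sl m r v = v := by
  unfold sl
  rw [max_eq_left]
  · ring
  · rcases h with h | h
    · exact (min_le_left _ _).trans (by linarith)
    · exact (min_le_right _ _).trans (by linarith)

lemma sl'_out {m r v : ℝ} (hm : 0 ≤ m) (hm1 : m ≤ 1) (h : v ≤ -r ∨ r ≤ v) : sl' m r v = v := by
  unfold sl'
  rw [max_eq_left]
  · ring
  · rcases h with h | h
    · exact (min_le_left _ _).trans (div_nonpos_of_nonpos_of_nonneg (by linarith) (by linarith))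
    · exact (min_le_right _ _).trans (div_nonpos_of_nonpos_of_nonneg (by linarith) (by linarith))

lemma sl_left {m r : ℝ} (hm : 0 ≤ m) (hm1 : m ≤ 1) (v : ℝ) : sl' m r (sl m r v) = v := by
  by_cases h : v ≤ -r ∨ r ≤ v
  · rw [sl_out h, sl'_out hm hm1 h]
  · push Not at h
    obtain ⟨h1, h2⟩ := h
    have h1m : 0 < 1 + m := by linarith
    have h2m : 0 < 2 - m := by linarith
    rcases le_total (v + r) ((r - v) / 2) with hle | hle
    · have e : sl m r v = v + m * (v + r) := by
        unfold sl; rw [min_eq_left hle, max_eq_right (by linarith)]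
      rw [e]; unfold sl'
      have e1 : (v + m * (v + r) + r) / (1 + m) = v + r := by field_simp; ring
      have e2 : v + r ≤ (r - (v + m * (v + r))) / (2 - m) := by
        rw [le_div_iff₀ h2m]; nlinarith
      rw [e1, min_eq_left e2, max_eq_right (by linarith)]; ring
    · have e : sl m r v = v + m * ((r - v) / 2) := by
        unfold sl; rw [min_eq_right hle, max_eq_right (by linarith)]
      rw [e]; unfold sl'
      have e1 : (r - (v + m * ((r - v) / 2))) / (2 - m) = (r - v) / 2 := by field_simp; ring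
      have e2 : (r - v) / 2 ≤ (v + m * ((r - v) / 2) + r) / (1 + m) := by
        rw [le_div_iff₀ h1m]; nlinarith
      rw [e1, min_eq_right e2, max_eq_right (by linarith)]; ring

lemma sl_right {m r : ℝ} (hm : 0 ≤ m) (hm1 : m ≤ 1) (w : ℝ) : sl m r (sl' m r w) = w := by
  by_cases h : w ≤ -r ∨ r ≤ w
  · rw [sl'_out hm hm1 h, sl_out h]
  · push Not at h
    obtain ⟨h1, h2⟩ := h
    have h1m : 0 < 1 + m := by linarith
    have h2m : 0 < 2 - m := by linarith
    obtain ⟨P, hP⟩ : ∃ P, P = (w + r) / (1 + m) := ⟨_, rfl⟩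
    obtain ⟨Q, hQ⟩ : ∃ Q, Q = (r - w) / (2 - m) := ⟨_, rfl⟩
    have hP' : w + r = P * (1 + m) := by rw [hP]; field_simp
    have hQ' : r - w = Q * (2 - m) := by rw [hQ]; field_simp
    have hP0 : 0 < P := by rw [hP]; apply div_pos <;> linarith
    have hQ0 : 0 < Q := by rw [hQ]; apply div_pos <;> linarith
    unfold sl'
    rw [← hP, ← hQ]
    rcases le_total P Q with hle | hle
    · rw [min_eq_left hle, max_eq_right hP0.le]
      unfold sl
      have e1 : w - m * P + r = P := by linarith
      have e2 : P ≤ (r - (w - m * P)) / 2 := by nlinarith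
      rw [e1, min_eq_left e2, max_eq_right hP0.le]; ring
    · rw [min_eq_right hle, max_eq_right hQ0.le]
      unfold sl
      have e1 : (r - (w - m * Q)) / 2 = Q := by linarith
      have e2 : Q ≤ w - m * Q + r := by nlinarith
      rw [e1, min_eq_right e2, max_eq_right hQ0.le]; ring

lemma sl_in {m r v : ℝ} (hm : 0 ≤ m) (hm1 : m ≤ 1) (h : |v| < r) : |sl m r v| < r := by
  rw [abs_lt] at h ⊢
  unfold sl
  have h1 : 0 ≤ max 0 (min (v + r) ((r - v) / 2)) := le_max_left _ _
  have h2 : max 0 (min (v + r) ((r - v) / 2)) ≤ (r - v) / 2 := max_le (by linarith) (min_le_right _ _)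
  constructor <;> nlinarith

lemma sl'_in {m r v : ℝ} (hm : 0 ≤ m) (hm1 : m ≤ 1) (h : |v| < r) : |sl' m r v| < r := by
  by_contra hcon
  have h3 := sl_right (r := r) hm hm1 v
  rw [not_lt, le_abs] at hcon
  rw [sl_out (by rcases hcon with h | h <;> [right; left] <;> linarith)] at h3
  rw [h3] at hcon
  rw [abs_lt] at h
  rcases hcon with h4 | h4 <;> linarith

lemma sl_iff {m r v : ℝ} (hm : 0 ≤ m) (hm1 : m ≤ 1) : |sl m r v| ≤ r ↔ |v| ≤ r := by
  rcases lt_or_ge |v| r with h | h
  · exact ⟨fun _ => h.le, fun _ => (sl_in hm hm1 h).le⟩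
  · have : sl m r v = v := sl_out (by rcases le_abs.1 h with h | h <;> [right; left] <;> linarith)
    rw [this]

/-- the disk contains the region where the slide moves points -/
lemma key_disk {u : ℝ} (hmu : 0 < mu u) : u ^ 2 + rr u ^ 2 ≤ 2 := by
  have h1 : |u| < 7 / 5 := by
    unfold mu at hmu
    by_contra h
    push Not at h
    rw [max_eq_left] at hmu
    · exact lt_irrefl _ hmu
    · exact (min_le_right _ _).trans (by linarith)
  have h2 : rr u ≤ 1 := max_le zero_le_one (min_le_left _ _)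
  have h3 := rr_nonneg u
  rw [← sq_abs u]
  have h4 := abs_nonneg u
  rcases le_total |u| 1 with h | h
  · nlinarith
  · have h5 : rr u = 3 - 2 * |u| := by
      unfold rr
      rw [min_eq_right (by linarith), max_eq_right (by linarith)]
    rw [h5]
    nlinarith

lemma sl_mem {u v : ℝ} (h : u ^ 2 + v ^ 2 < 2) : u ^ 2 + (sl (mu u) (rr u) v) ^ 2 < 2 := by
  rcases lt_or_ge |v| (rr u) with hv | hv
  · rcases (mu_nonneg u).eq_or_lt with h0 | h0
    · unfold sl; rw [← h0]; simpa using h
    · have h1 := key_disk h0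
      have h2 := sl_in (mu_nonneg u) (mu_le u) hv
      have h3 : (sl (mu u) (rr u) v) ^ 2 < rr u ^ 2 := by
        rw [← sq_abs]; exact pow_lt_pow_left₀ h2 (abs_nonneg _) two_ne_zero
      linarith
  · rw [sl_out (by rcases le_abs.1 hv with h | h <;> [right; left] <;> linarith)]
    exact h

lemma sl'_mem {u v : ℝ} (h : u ^ 2 + v ^ 2 < 2) : u ^ 2 + (sl' (mu u) (rr u) v) ^ 2 < 2 := by
  rcases lt_or_ge |v| (rr u) with hv | hv
  · rcases (mu_nonneg u).eq_or_lt with h0 | h0
    · unfold sl'; rw [← h0]; simpa using h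
    · have h1 := key_disk h0
      have h2 := sl'_in (mu_nonneg u) (mu_le u) hv
      have h3 : (sl' (mu u) (rr u) v) ^ 2 < rr u ^ 2 := by
        rw [← sq_abs]; exact pow_lt_pow_left₀ h2 (abs_nonneg _) two_ne_zero
      linarith
  · rw [sl'_out (mu_nonneg u) (mu_le u) (by rcases le_abs.1 hv with h | h <;> [right; left] <;> linarith)]
    exact h

lemma continuous_rr : Continuous rr := by unfold rr; fun_prop
lemma continuous_mu : Continuous mu := by unfold mu; fun_prop

/-- the slide of the disk -/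
noncomputable def slD : Dk ≃ₜ Dk where
  toFun p := ⟨(p.1.1, sl (mu p.1.1) (rr p.1.1) p.1.2), sl_mem p.2⟩
  invFun p := ⟨(p.1.1, sl' (mu p.1.1) (rr p.1.1) p.1.2), sl'_mem p.2⟩
  left_inv := by
    intro p
    apply Subtype.ext
    exact Prod.ext rfl (sl_left (mu_nonneg _) (mu_le _) _)
  right_inv := by
    intro p
    apply Subtype.ext
    exact Prod.ext rfl (sl_right (mu_nonneg _) (mu_le _) _)
  continuous_toFun := by
    apply Continuous.subtype_mk
    apply Continuous.prodMk (by fun_prop)
    have h1 : Continuous fun p : Dk => mu p.1.1 := continuous_mu.comp (by fun_prop)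
    have h2 : Continuous fun p : Dk => rr p.1.1 := continuous_rr.comp (by fun_prop)
    have h3 : Continuous fun p : Dk => p.1.2 := by fun_prop
    unfold sl
    exact h3.add (h1.mul (continuous_const.max ((h3.add h2).min ((h2.sub h3).div_const 2))))
  continuous_invFun := by
    apply Continuous.subtype_mk
    apply Continuous.prodMk (by fun_prop)
    have h1 : Continuous fun p : Dk => mu p.1.1 := continuous_mu.comp (by fun_prop)
    have h2 : Continuous fun p : Dk => rr p.1.1 := continuous_rr.comp (by fun_prop)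
    have h3 : Continuous fun p : Dk => p.1.2 := by fun_prop
    unfold sl'
    refine h3.sub (h1.mul (continuous_const.max (Continuous.min ?_ ?_)))
    · refine Continuous.div (h3.add h2) (continuous_const.add h1) ?_
      intro p; have := mu_nonneg p.1.1; positivity
    · refine Continuous.div (h2.sub h3) (continuous_const.sub h1) ?_
      intro p; have := mu_le p.1.1; linarith

/-- the slide of the upper half plane -/
noncomputable def slH : ℍ ≃ₜ ℍ := kl.trans (slD.trans kl.symm)

lemma kl_symm_uu (p : Dk) : uu (kl.symm p) = p.1.1 := invK_uu p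
lemma kl_symm_vv (p : Dk) : vv (kl.symm p) = p.1.2 := invK_vv p

lemma slH_uu (z : ℍ) : uu (slH z) = uu z := by
  show uu (kl.symm (slD (kl z))) = _
  rw [kl_symm_uu]; rfl

lemma slH_vv (z : ℍ) : vv (slH z) = sl (mu (uu z)) (rr (uu z)) (vv z) := by
  show vv (kl.symm (slD (kl z))) = _
  rw [kl_symm_vv]; rfl

end Pool.Agent.Helper42.Tiling
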