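import Mathlib
import Pool.Agent.Helper42.Tiling.Defs
import Pool.Agent.Helper42.Tiling.Slide
import Pool.Agent.Helper42.Tiling.Sep

/-!
The tiles.
-/

namespace Pool.Agent.Helper42.Tiling

open UpperHalfPlane Matrix


/-- heights -/
noncomputable def yy : ℤ → ℝ
  | Int.ofNat n => 1 - (1 / 2 : ℝ) ^ n
  | Int.negSucc n => (1 / 2 : ℝ) ^ (n + 1) - 1

lemma half_pow_pos (n : ℕ) : 0 < (1 / 2 : ℝ) ^ n := by positivity
lemma half_pow_le (n : ℕ) : (1 / 2 : ℝ) ^ n ≤ 1 := pow_le_one₀ (by norm_num) (by norm_num)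

lemma yy_abs (n : ℤ) : |yy n| < 1 := by
  rw [abs_lt]
  cases n with
  | ofNat n =>
    have h1 := half_pow_pos n
    have h2 := half_pow_le n
    simp only [yy]
    constructor <;> linarith
  | negSucc n =>
    have h1 := half_pow_pos (n + 1)
    have h2 := half_pow_le n
    simp only [yy]
    rw [pow_succ] at h1 ⊢
    constructor <;> linarith

lemma yy_succ (n : ℤ) : sl 1 1 (yy n) = yy (n + 1) := by
  cases n with
  | ofNat n =>
    have h : (Int.ofNat n + 1 : ℤ) = Int.ofNat (n + 1) := rfl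
    rw [h]
    have h1 := half_pow_pos n
    have h2 := half_pow_le n
    simp only [yy, sl]
    rw [min_eq_right (by linarith), max_eq_right (by linarith), pow_succ]
    ring
  | negSucc n =>
    cases n with
    | zero =>
      have h : (Int.negSucc 0 + 1 : ℤ) = Int.ofNat 0 := rfl
      rw [h]
      simp only [yy, sl]
      norm_num
    | succ n =>
      have h : (Int.negSucc (n + 1) + 1 : ℤ) = Int.negSucc n := rfl
      rw [h]
      have h1 := half_pow_pos n
      have h2 := half_pow_le n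
      simp only [yy, sl]
      rw [pow_succ, pow_succ]
      rw [min_eq_left (by linarith), max_eq_right (by linarith)]
      ring

lemma sl_strictMono {m r : ℝ} (hm : 0 ≤ m) (hm1 : m ≤ 1) : StrictMono (sl m r) := by
  intro a b hab
  have h : max 0 (min (a + r) ((r - a) / 2)) - (b - a) / 2 ≤ max 0 (min (b + r) ((r - b) / 2)) := by
    rcases le_total 0 (min (a + r) ((r - a) / 2)) with h1 | h1
    · rw [max_eq_right h1]
      apply le_trans _ (le_max_right _ _)
      rcases le_total (b + r) ((r - b) / 2) with h2 | h2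
      · rw [min_eq_left h2]
        have := min_le_left (a + r) ((r - a) / 2)
        linarith
      · rw [min_eq_right h2]
        have := min_le_right (a + r) ((r - a) / 2)
        linarith
    · rw [max_eq_left h1]
      apply le_trans _ (le_max_left _ _)
      linarith
  unfold sl
  nlinarith [le_max_left 0 (min (a + r) ((r - a) / 2)), le_max_left 0 (min (b + r) ((r - b) / 2))]

lemma yy_lt_succ (n : ℤ) : yy n < yy (n + 1) := by
  rw [← yy_succ]
  have h := yy_abs n
  rw [abs_lt] at h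
  unfold sl
  rw [max_eq_right]
  · have : 0 < min (yy n + 1) ((1 - yy n) / 2) := lt_min (by linarith) (by linarith)
    linarith
  · exact le_min (by linarith) (by linarith)

lemma yy_strictMono : StrictMono yy := strictMono_int_of_lt_succ yy_lt_succ

lemma yy_cover {t : ℝ} (ht : |t| < 1) : ∃ n : ℤ, yy n ≤ t ∧ t ≤ yy (n + 1) := by
  rw [abs_lt] at ht
  rcases le_or_gt 0 t with h | h
  · obtain ⟨n, h1, h2⟩ := exists_nat_pow_near_of_lt_one (x := 1 - t) (y := (1 / 2 : ℝ)) (by linarith)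
      (by linarith) (by norm_num) (by norm_num)
    refine ⟨Int.ofNat n, ?_, ?_⟩
    · simp only [yy]; linarith
    · have : (Int.ofNat n + 1 : ℤ) = Int.ofNat (n + 1) := rfl
      rw [this]
      simp only [yy]; linarith
  · obtain ⟨n, h1, h2⟩ := exists_nat_pow_near_of_lt_one (x := 1 + t) (y := (1 / 2 : ℝ)) (by linarith)
      (by linarith) (by norm_num) (by norm_num)
    refine ⟨Int.negSucc n, ?_, ?_⟩
    · simp only [yy]; linarith
    · cases n with
      | zero =>
        have : (Int.negSucc 0 + 1 : ℤ) = Int.ofNat 0 := rfl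
        rw [this]
        simp only [yy]; norm_num; exact h.le
      | succ n =>
        have : (Int.negSucc (n + 1) + 1 : ℤ) = Int.negSucc n := rfl
        rw [this]
        simp only [yy]; linarith

/-- tiles -/
def tile (g : SLZ) (n : ℤ) : Set ℍ :=
  {z | |uu (g • z)| ≤ 1 ∧ yy n ≤ vv (g • z) ∧ vv (g • z) ≤ yy (n + 1)}

/-- the family of tiles -/
def tiles : Set (Set ℍ) := {T | ∃ g ∈ Gm, ∃ n : ℤ, T = tile g n}

lemma vv_of_tile {g : SLZ} {n : ℤ} {z : ℍ} (h : z ∈ tile g n) : |vv (g • z)| < 1 := by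
  obtain ⟨h1, h2, h3⟩ := h
  have h4 := yy_abs n
  have h5 := yy_abs (n + 1)
  rw [abs_lt] at *
  constructor <;> linarith

lemma W_of_tile {g : SLZ} {n : ℤ} {z : ℍ} (h : z ∈ tile g n) : g • z ∈ W := by
  rw [mem_W]
  exact ⟨h.1, (vv_of_tile h).le⟩

lemma sameAct_tile {g h : SLZ} (hgh : SameAct g h) (n : ℤ) : tile g n = tile h n := by
  ext z; unfold tile; simp only [Set.mem_ofPred_eq]; rw [hgh z]

lemma sep' {g : SLZ} (hg : g ∈ Gm) {z : ℍ} (hz : z ∈ W) (hv : |vv z| < 1) (hgz : g • z ∈ W)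
    (hv' : |vv (g • z)| < 1) : SameAct g 1 := by
  rcases separation hg hz hgz with h | ⟨h1, h2⟩ | ⟨h1, h2⟩ | ⟨h1, h2⟩ | ⟨h1, h2⟩
  · exact h
  · exfalso
    rw [h2 z, (uv_gA z).2, h1] at hv'
    norm_num at hv'
  · rw [h1] at hv; norm_num at hv
  · rw [h1] at hv; norm_num at hv
  · exfalso
    rw [h2 z, (uv_gB' z).2, h1] at hv'
    norm_num at hv'

lemma tile_meet {g g' : SLZ} (hg : g ∈ Gm) (hg' : g' ∈ Gm) {n n' : ℤ} {z : ℍ} (h : z ∈ tile g n)
    (h' : z ∈ tile g' n') : SameAct g' g := by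
  have h1 : (g' * g⁻¹) • (g • z) = g' • z := by
    rw [mul_smul, inv_smul_smul]
  have h2 : SameAct (g' * g⁻¹) 1 := by
    apply sep' (Gm.mul_mem hg' (Gm.inv_mem hg)) (W_of_tile h) (vv_of_tile h)
    · rw [h1]; exact W_of_tile h'
    · rw [h1]; exact vv_of_tile h'
  intro w
  have h3 := h2 (g • w)
  rwa [mul_smul, inv_smul_smul, one_smul] at h3

lemma continuous_act (g : SLZ) : Continuous fun z : ℍ => g • z :=
  continuous_const_smul (g : GL (Fin 2) ℝ)

lemma countable_SLZ : Countable SLZ := by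
  have : Countable (Matrix (Fin 2) (Fin 2) ℤ) := by unfold Matrix; infer_instance
  unfold SLZ Matrix.SpecialLinearGroup
  infer_instance

lemma tile_closed (g : SLZ) (n : ℤ) : IsClosed (tile g n) := by
  have h1 : Continuous fun z : ℍ => uu (g • z) := continuous_uu.comp (continuous_act g)
  have h2 : Continuous fun z : ℍ => vv (g • z) := continuous_vv.comp (continuous_act g)
  exact (isClosed_le h1.abs continuous_const).inter
    ((isClosed_le continuous_const h2).inter (isClosed_le h2 continuous_const))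

lemma tiles_countable : tiles.Countable := by
  have := countable_SLZ
  have h : tiles ⊆ Set.range fun p : SLZ × ℤ => tile p.1 p.2 := by
    rintro T ⟨g, hg, n, rfl⟩
    exact ⟨(g, n), rfl⟩
  exact (Set.countable_range _).mono h

lemma tiles_cover : ⋃₀ tiles = Set.univ := by
  rw [Set.eq_univ_iff_forall]
  intro z
  obtain ⟨g, hg, h1, h2⟩ := covering z
  obtain ⟨n, h3, h4⟩ := yy_cover h2
  rw [mem_W] at h1
  exact ⟨tile g n, ⟨g, hg, n, rfl⟩, h1.1, h3, h4⟩

/-- action as a homeomorphism -/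
noncomputable def actH (g : SLZ) : ℍ ≃ₜ ℍ where
  toFun z := g • z
  invFun z := g⁻¹ • z
  left_inv z := inv_smul_smul g z
  right_inv z := smul_inv_smul g z
  continuous_toFun := continuous_act g
  continuous_invFun := continuous_act g⁻¹

lemma actH_image (h g : SLZ) (n : ℤ) : actH h '' tile g n = tile (g * h⁻¹) n := by
  ext z
  constructor
  · rintro ⟨w, hw, rfl⟩
    have e : (g * h⁻¹) • (actH h w) = g • w := by
      show (g * h⁻¹) • (h • w) = g • w
      rw [mul_smul, inv_smul_smul]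
    unfold tile at hw ⊢
    simp only [Set.mem_ofPred_eq] at hw ⊢
    rw [e]; exact hw
  · intro hz
    refine ⟨h⁻¹ • z, ?_, smul_inv_smul h z⟩
    unfold tile at hz ⊢
    simp only [Set.mem_ofPred_eq] at hz ⊢
    rw [mul_smul] at hz
    exact hz

lemma isOpen_Dk : IsOpen Dk := by
  unfold Dk
  exact isOpen_lt (by fun_prop) continuous_const

lemma open_map (g : SLZ) : IsOpenMap fun z : ℍ => ((uu (g • z), vv (g • z)) : ℝ × ℝ) := by
  have h1 : IsOpenMap (Subtype.val : Dk → ℝ × ℝ) := isOpen_Dk.isOpenMap_subtype_val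
  have h2 : IsOpenMap kl := kl.isOpenMap
  have h3 : IsOpenMap (actH g) := (actH g).isOpenMap
  exact h1.comp (h2.comp h3)

lemma interior_tile {g : SLZ} {n : ℤ} {z : ℍ} (hz : z ∈ interior (tile g n)) :
    |uu (g • z)| < 1 ∧ yy n < vv (g • z) ∧ vv (g • z) < yy (n + 1) := by
  have h1 : (fun z : ℍ => ((uu (g • z), vv (g • z)) : ℝ × ℝ)) '' interior (tile g n) ⊆
      interior (Set.Icc (-1) 1 ×ˢ Set.Icc (yy n) (yy (n + 1))) := by
    apply interior_maximal
    · rintro _ ⟨w, hw, rfl⟩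
      obtain ⟨h1, h2, h3⟩ := interior_subset hw
      rw [abs_le] at h1
      exact ⟨h1, h2, h3⟩
    · exact open_map g _ isOpen_interior
  have h2 := h1 ⟨z, hz, rfl⟩
  rw [interior_prod_eq, interior_Icc, interior_Icc] at h2
  obtain ⟨h3, h4⟩ := h2
  exact ⟨abs_lt.2 h3, h4.1, h4.2⟩

lemma tiles_interiors : ∀ T ∈ tiles, ∀ T' ∈ tiles, T ≠ T' → Disjoint (interior T) (interior T') := by
  rintro T ⟨g, hg, n, rfl⟩ T' ⟨g', hg', n', rfl⟩ hne
  rw [Set.disjoint_left]
  intro z hz hz'
  have h1 := tile_meet hg hg' (interior_subset hz) (interior_subset hz')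
  rw [sameAct_tile h1] at hz' hne
  obtain ⟨-, h2, h3⟩ := interior_tile hz
  obtain ⟨-, h4, h5⟩ := interior_tile hz'
  apply hne
  have h6 : n < n' + 1 := yy_strictMono.lt_iff_lt.1 (h2.trans h5)
  have h7 : n' < n + 1 := yy_strictMono.lt_iff_lt.1 (h4.trans h3)
  have : n = n' := by omega
  rw [this]

lemma tiles_isTiling : IsTiling tiles where
  countable := tiles_countable
  isClosed := by rintro T ⟨g, hg, n, rfl⟩; exact tile_closed g n
  cover := tiles_cover
  interiors := tiles_interiors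

/-- coordinates of the plane -/
noncomputable def LL : Plane ≃L[ℝ] ℝ × ℝ :=
  (EuclideanSpace.equiv (Fin 2) ℝ).trans (ContinuousLinearEquiv.finTwoArrow ℝ ℝ)

lemma mem_Dk_of {p : ℝ × ℝ} {n : ℤ} (hp : p ∈ Set.Icc (-1 : ℝ) 1 ×ˢ Set.Icc (yy n) (yy (n + 1))) :
    p ∈ Dk := by
  obtain ⟨⟨h1, h2⟩, h3, h4⟩ := hp
  have h5 := yy_abs n
  have h6 := yy_abs (n + 1)
  rw [abs_lt] at h5 h6
  show p.1 ^ 2 + p.2 ^ 2 < 2
  have h7 : -1 < p.2 := by linarith
  have h8 : p.2 < 1 := by linarith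
  nlinarith

/-- a tile is a rectangle -/
noncomputable def tileRect (g : SLZ) (n : ℤ) :
    tile g n ≃ₜ (Set.Icc (-1 : ℝ) 1 ×ˢ Set.Icc (yy n) (yy (n + 1)) : Set (ℝ × ℝ)) where
  toFun z := ⟨(uu (g • z.1), vv (g • z.1)), abs_le.1 z.2.1, z.2.2⟩
  invFun p := ⟨g⁻¹ • kl.symm ⟨p.1, mem_Dk_of p.2⟩, by
    obtain ⟨p, h1, h2, h3⟩ := p
    unfold tile
    simp only [Set.mem_ofPred_eq, smul_inv_smul, kl_symm_uu, kl_symm_vv]
    exact ⟨abs_le.2 h1, h2, h3⟩⟩
  left_inv := by
    rintro ⟨z, hz⟩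
    apply Subtype.ext
    show g⁻¹ • kl.symm (kl (g • z)) = z
    rw [Homeomorph.symm_apply_apply, inv_smul_smul]
  right_inv := by
    rintro ⟨p, hp⟩
    apply Subtype.ext
    show (uu (g • (g⁻¹ • kl.symm ⟨p, mem_Dk_of hp⟩)), vv (g • (g⁻¹ • kl.symm ⟨p, mem_Dk_of hp⟩))) = p
    rw [smul_inv_smul, kl_symm_uu, kl_symm_vv]
  continuous_toFun := by
    apply Continuous.subtype_mk
    exact (continuous_uu.comp ((continuous_act g).comp continuous_subtype_val)).prodMk
      (continuous_vv.comp ((continuous_act g).comp continuous_subtype_val))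
  continuous_invFun := by
    apply Continuous.subtype_mk
    apply (continuous_act g⁻¹).comp
    apply kl.symm.continuous.comp
    apply Continuous.subtype_mk
    exact continuous_subtype_val

lemma rect_ball (n : ℤ) : Nonempty ((Set.Icc (-1 : ℝ) 1 ×ˢ Set.Icc (yy n) (yy (n + 1)) : Set (ℝ × ℝ)) ≃ₜ
    Metric.closedBall (0 : Plane) 1) := by
  set R : Set (ℝ × ℝ) := Set.Icc (-1 : ℝ) 1 ×ˢ Set.Icc (yy n) (yy (n + 1)) with hR
  set S : Set Plane := LL.toHomeomorph.symm '' R with hS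
  have hRc : IsCompact R := isCompact_Icc.prod isCompact_Icc
  have hSc : IsCompact S := hRc.image LL.toHomeomorph.symm.continuous
  have hconv : Convex ℝ S := by
    have : Convex ℝ R := (convex_Icc _ _).prod (convex_Icc _ _)
    exact this.linear_image LL.symm.toLinearEquiv.toLinearMap
  have hint : (interior S).Nonempty := by
    rw [hS, ← Homeomorph.image_interior, hR, interior_prod_eq, interior_Icc, interior_Icc]
    apply Set.Nonempty.image
    exact (Set.nonempty_Ioo.2 (by norm_num)).prod (Set.nonempty_Ioo.2 (yy_lt_succ n))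
  obtain ⟨h, -, h1, -⟩ := exists_homeomorph_image_interior_closure_frontier_eq_unitBall hconv hint
    hSc.isBounded
  rw [hSc.isClosed.closure_eq] at h1
  have e1 : R ≃ₜ S := LL.toHomeomorph.symm.image R
  have e2 : S ≃ₜ (h '' S : Set Plane) := h.image S
  exact ⟨e1.trans (e2.trans (Homeomorph.setCongr h1))⟩

lemma tiles_N1 : N1 tiles := by
  rintro T ⟨g, hg, n, rfl⟩
  obtain ⟨e⟩ := rect_ball n
  exact ⟨(tileRect g n).trans e⟩

lemma mem_Dk_seg {x : ℝ} (hx : x ∈ Set.Icc (-1 : ℝ) 1) (n : ℤ) : (x, yy n) ∈ Dk := by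
  have h5 := yy_abs n
  rw [abs_lt] at h5
  show x ^ 2 + yy n ^ 2 < 2
  obtain ⟨h1, h2⟩ := hx
  nlinarith

lemma tile_inter (g : SLZ) (n : ℤ) : tile g n ∩ tile g (n + 1) =
    (fun x : Set.Icc (-1 : ℝ) 1 => g⁻¹ • kl.symm ⟨(x.1, yy (n + 1)), mem_Dk_seg x.2 (n + 1)⟩) '' Set.univ := by
  ext z
  constructor
  · rintro ⟨⟨h1, h2, h3⟩, ⟨_, h5, h6⟩⟩
    have h7 : vv (g • z) = yy (n + 1) := le_antisymm h3 h5
    refine ⟨⟨uu (g • z), abs_le.1 h1⟩, trivial, ?_⟩
    simp only
    rw [inv_smul_eq_iff]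
    apply kl_ext
    · rw [kl_symm_uu]
    · rw [kl_symm_vv, h7]
  · rintro ⟨x, -, rfl⟩
    unfold tile
    simp only [Set.mem_inter_iff, Set.mem_ofPred_eq, smul_inv_smul, kl_symm_uu, kl_symm_vv]
    exact ⟨⟨abs_le.2 x.2, (yy_lt_succ n).le, le_rfl⟩, abs_le.2 x.2, le_rfl, (yy_lt_succ (n + 1)).le⟩

lemma tile_inter_connected (g : SLZ) (n : ℤ) : IsConnected (tile g n ∩ tile g (n + 1)) := by
  rw [tile_inter]
  have : ConnectedSpace (Set.Icc (-1 : ℝ) 1) := by
    rw [← isConnected_iff_connectedSpace]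
    exact isConnected_Icc (by norm_num)
  apply isConnected_univ.image
  apply Continuous.continuousOn
  apply (continuous_act g⁻¹).comp
  apply kl.symm.continuous.comp
  apply Continuous.subtype_mk
  exact (continuous_subtype_val.prodMk continuous_const)

lemma tiles_N2 : N2 tiles := by
  rintro T ⟨g, hg, n, rfl⟩ T' ⟨g', hg', n', rfl⟩ hne
  rw [or_iff_not_imp_left, Set.not_disjoint_iff]
  rintro ⟨z, hz, hz'⟩
  have h1 := tile_meet hg hg' hz hz'
  rw [sameAct_tile h1] at hz' hne ⊢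
  have hnn : n ≠ n' := by rintro rfl; exact hne rfl
  obtain ⟨-, h2, h3⟩ := hz
  obtain ⟨-, h4, h5⟩ := hz'
  have h6 : n ≤ n' + 1 := yy_strictMono.le_iff_le.1 (h2.trans h5)
  have h7 : n' ≤ n + 1 := yy_strictMono.le_iff_le.1 (h4.trans h3)
  have h8 : n' = n + 1 ∨ n = n' + 1 := by omega
  rcases h8 with rfl | rfl
  · exact tile_inter_connected g n
  · rw [Set.inter_comm]
    exact tile_inter_connected g n'

end Pool.Agent.Helper42.Tiling
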