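import Mathlib
import Pool.Agent.Helper42.Tiling.Tiles

/-!
Homeohedrality, the singular point and the transfer to the plane.
-/

namespace Pool.Agent.Helper42.Tiling

open UpperHalfPlane Matrix


section generic

variable {X Y : Type*} [TopologicalSpace X] [TopologicalSpace Y]

lemma mapsOnto_of {𝒯 : Set (Set X)} {σ : X ≃ₜ X} (h1 : ∀ T ∈ 𝒯, σ '' T ∈ 𝒯)
    (h2 : ∀ T ∈ 𝒯, ∃ S ∈ 𝒯, σ '' S = T) : MapsOntoItself σ 𝒯 := by
  unfold MapsOntoItself
  ext T
  constructor
  · rintro ⟨S, hS, rfl⟩; exact h1 S hS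
  · intro hT; obtain ⟨S, hS, e⟩ := h2 T hT; exact ⟨S, hS, e.symm⟩

lemma MapsOntoItself.mem {𝒯 : Set (Set X)} {σ : X ≃ₜ X} (h : MapsOntoItself σ 𝒯) {T : Set X}
    (hT : T ∈ 𝒯) : σ '' T ∈ 𝒯 := by
  rw [← h]; exact ⟨T, hT, rfl⟩

lemma MapsOntoItself.surj {𝒯 : Set (Set X)} {σ : X ≃ₜ X} (h : MapsOntoItself σ 𝒯) {T : Set X}
    (hT : T ∈ 𝒯) : ∃ S ∈ 𝒯, σ '' S = T := by
  rw [← h] at hT; obtain ⟨S, hS, e⟩ := hT; exact ⟨S, hS, e.symm⟩

/-- equivalence of tiles -/
def Rel (𝒯 : Set (Set X)) (T T' : Set X) : Prop := ∃ σ : X ≃ₜ X, MapsOntoItself σ 𝒯 ∧ σ '' T = T'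

lemma Rel.refl (𝒯 : Set (Set X)) (T : Set X) : Rel 𝒯 T T := by
  refine ⟨Homeomorph.refl X, mapsOnto_of ?_ ?_, ?_⟩
  · intro T hT; simpa using hT
  · intro T hT; exact ⟨T, hT, by simp⟩
  · simp

lemma Rel.symm {𝒯 : Set (Set X)} {T T' : Set X} (h : Rel 𝒯 T T') : Rel 𝒯 T' T := by
  obtain ⟨σ, h1, rfl⟩ := h
  have e : ∀ S : Set X, σ.symm '' (σ '' S) = S := fun S => by
    rw [← Set.image_comp]; simp
  refine ⟨σ.symm, mapsOnto_of ?_ ?_, e T⟩
  · intro S hS
    obtain ⟨S', hS', rfl⟩ := h1.surj hS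
    rw [e]; exact hS'
  · intro S hS
    exact ⟨σ '' S, h1.mem hS, e S⟩

lemma Rel.trans {𝒯 : Set (Set X)} {T T' T'' : Set X} (h : Rel 𝒯 T T') (h' : Rel 𝒯 T' T'') :
    Rel 𝒯 T T'' := by
  obtain ⟨σ, h1, rfl⟩ := h
  obtain ⟨τ, h2, rfl⟩ := h'
  have e : ∀ S : Set X, (σ.trans τ) '' S = τ '' (σ '' S) := fun S => by
    rw [← Set.image_comp]; rfl
  refine ⟨σ.trans τ, mapsOnto_of ?_ ?_, e T⟩
  · intro S hS; rw [e]; exact h2.mem (h1.mem hS)
  · intro S hS
    obtain ⟨S', hS', rfl⟩ := h2.surj hS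
    obtain ⟨S'', hS'', rfl⟩ := h1.surj hS'
    exact ⟨S'', hS'', e S''⟩

lemma image_eq_of_iff (σ : X ≃ₜ X) {S T : Set X} (h : ∀ z, σ z ∈ T ↔ z ∈ S) : σ '' S = T := by
  ext w
  constructor
  · rintro ⟨z, hz, rfl⟩; exact (h z).2 hz
  · intro hw
    refine ⟨σ.symm w, (h _).1 ?_, σ.apply_symm_apply w⟩
    rwa [σ.apply_symm_apply]

/-- transport of a family of sets -/
def transport (Φ : X ≃ₜ Y) (𝒯 : Set (Set X)) : Set (Set Y) := {S | ∃ T ∈ 𝒯, S = Φ '' T}

variable (Φ : X ≃ₜ Y) {𝒯 : Set (Set X)}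

lemma transport_isTiling (h : IsTiling 𝒯) : IsTiling (transport Φ 𝒯) where
  countable := by
    have : transport Φ 𝒯 = (fun T => Φ '' T) '' 𝒯 := by
      ext S; constructor
      · rintro ⟨T, hT, rfl⟩; exact ⟨T, hT, rfl⟩
      · rintro ⟨T, hT, rfl⟩; exact ⟨T, hT, rfl⟩
    rw [this]; exact h.countable.image _
  isClosed := by
    rintro S ⟨T, hT, rfl⟩
    exact Φ.isClosedMap _ (h.isClosed T hT)
  cover := by
    rw [Set.eq_univ_iff_forall]
    intro y
    have : Φ.symm y ∈ ⋃₀ 𝒯 := by rw [h.cover]; trivial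
    obtain ⟨T, hT, hy⟩ := this
    exact ⟨Φ '' T, ⟨T, hT, rfl⟩, Φ.symm y, hy, Φ.apply_symm_apply y⟩
  interiors := by
    rintro S ⟨T, hT, rfl⟩ S' ⟨T', hT', rfl⟩ hne
    rw [← Φ.image_interior, ← Φ.image_interior, Set.disjoint_image_iff Φ.injective]
    apply h.interiors T hT T' hT'
    rintro rfl; exact hne rfl

lemma transport_N1 (h : N1 𝒯) : N1 (transport Φ 𝒯) := by
  rintro S ⟨T, hT, rfl⟩
  obtain ⟨e⟩ := h T hT
  exact ⟨(Φ.image T).symm.trans e⟩

lemma transport_N2 (h : N2 𝒯) : N2 (transport Φ 𝒯) := by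
  rintro S ⟨T, hT, rfl⟩ S' ⟨T', hT', rfl⟩ hne
  rcases h T hT T' hT' (by rintro rfl; exact hne rfl) with h1 | h1
  · left; exact (Set.disjoint_image_iff Φ.injective).2 h1
  · right; rw [← Set.image_inter Φ.injective]
    exact h1.image _ Φ.continuous.continuousOn

lemma transport_homeohedral (h : Homeohedral 𝒯) : Homeohedral (transport Φ 𝒯) := by
  rintro S ⟨T, hT, rfl⟩ S' ⟨T', hT', rfl⟩
  obtain ⟨σ, h1, rfl⟩ := h T hT T' hT'
  have e : ∀ S : Set X, (Φ.symm.trans (σ.trans Φ)) '' (Φ '' S) = Φ '' (σ '' S) := fun S => by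
    rw [← Set.image_comp, ← Set.image_comp]
    apply Set.image_congr
    intro x _
    simp
  refine ⟨Φ.symm.trans (σ.trans Φ), mapsOnto_of ?_ ?_, e T⟩
  · rintro R ⟨R', hR', rfl⟩
    rw [e]; exact ⟨σ '' R', h1.mem hR', rfl⟩
  · rintro R ⟨R', hR', rfl⟩
    obtain ⟨R'', hR'', rfl⟩ := h1.surj hR'
    exact ⟨Φ '' R'', ⟨R'', hR'', rfl⟩, e R''⟩

end generic

/-! ### the slide -/

lemma slH_tile_one (n : ℤ) : slH '' tile 1 n = tile 1 (n + 1) := by
  apply image_eq_of_iff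
  intro z
  unfold tile
  simp only [Set.mem_ofPred_eq, one_smul, slH_uu, slH_vv]
  apply and_congr_right
  intro hu
  have h1 : mu (uu z) = 1 := by
    unfold mu; rw [min_eq_left (by linarith), max_eq_right zero_le_one]
  have h2 : rr (uu z) = 1 := by
    unfold rr; rw [min_eq_left (by linarith), max_eq_right zero_le_one]
  have h3 : StrictMono (sl 1 1) := sl_strictMono zero_le_one le_rfl
  rw [h1, h2, ← yy_succ (n + 1), h3.le_iff_le, ← yy_succ n, h3.le_iff_le]

lemma tile_gB'_iff {g : SLZ} (hg : SameAct g gB') (n : ℤ) (z : ℍ) : z ∈ tile g n ↔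
    1 < uu z ∧ |vv z| ≤ rr (uu z) ∧ yy n ≤ (3 * uu z - 4) / (3 - 2 * uu z) ∧
      (3 * uu z - 4) / (3 - 2 * uu z) ≤ yy (n + 1) := by
  have h1 := (two_vv_lt z).2.2.1
  rw [sameAct_tile hg]
  unfold tile
  simp only [Set.mem_ofPred_eq]
  rw [(uv_gB' z).1, (uv_gB' z).2, abs_div, abs_neg, abs_of_pos h1, div_le_one h1]
  have h2 : 1 < uu z → rr (uu z) = 3 - 2 * uu z := by
    intro h; unfold rr
    rw [abs_of_pos (by linarith), min_eq_right (by linarith), max_eq_right (by linarith)]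
  constructor
  · rintro ⟨h3, h4, h5⟩
    have h6 : 1 < uu z := by
      have h7 := (abs_lt.1 (yy_abs n)).1
      have h8 : -1 < (3 * uu z - 4) / (3 - 2 * uu z) := by linarith
      rw [lt_div_iff₀ h1] at h8
      linarith
    exact ⟨h6, by rw [h2 h6]; exact h3, h4, h5⟩
  · rintro ⟨h3, h4, h5, h6⟩
    rw [h2 h3] at h4
    exact ⟨h4, h5, h6⟩

lemma tile_gA_iff {g : SLZ} (hg : SameAct g gA) (n : ℤ) (z : ℍ) : z ∈ tile g n ↔
    uu z < -1 ∧ |vv z| ≤ rr (uu z) ∧ yy n ≤ (3 * uu z + 4) / (2 * uu z + 3) ∧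
      (3 * uu z + 4) / (2 * uu z + 3) ≤ yy (n + 1) := by
  have h1 := (two_vv_lt z).2.2.2
  have h1' : 0 < 2 * uu z + 3 := by linarith
  rw [sameAct_tile hg]
  unfold tile
  simp only [Set.mem_ofPred_eq]
  rw [(uv_gA z).1, (uv_gA z).2, abs_div, abs_neg, abs_of_pos h1', div_le_one h1']
  have h2 : uu z < -1 → rr (uu z) = 2 * uu z + 3 := by
    intro h; unfold rr
    rw [abs_of_neg (by linarith), min_eq_right (by linarith), max_eq_right (by linarith)]
    ring
  constructor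
  · rintro ⟨h3, h4, h5⟩
    have h6 : uu z < -1 := by
      have h7 := (abs_lt.1 (yy_abs (n + 1))).2
      have h8 : (3 * uu z + 4) / (2 * uu z + 3) < 1 := by linarith
      rw [div_lt_iff₀ h1'] at h8
      linarith
    exact ⟨h6, by rw [h2 h6]; exact h3, h4, h5⟩
  · rintro ⟨h3, h4, h5, h6⟩
    rw [h2 h3] at h4
    exact ⟨h4, h5, h6⟩

lemma slH_fix {g : SLZ} (hg : g ∈ Gm) (n : ℤ) (h1 : ¬ SameAct g 1) (h2 : ¬ SameAct g gB')
    (h3 : ¬ SameAct g gA) {z : ℍ} (hz : z ∈ tile g n) : slH z = z := by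
  apply kl_ext (slH_uu z)
  rw [slH_vv]
  by_contra hcon
  have hm : 0 < mu (uu z) := by
    rcases (mu_nonneg (uu z)).eq_or_lt with h0 | h0
    · exfalso; apply hcon; unfold sl; rw [← h0]; ring
    · exact h0
  have hr : |vv z| < rr (uu z) := by
    by_contra h
    push Not at h
    apply hcon
    rw [sl_out (by rcases le_abs.1 h with h | h <;> [right; left] <;> linarith)]
  have hgW := W_of_tile hz
  have hgv := vv_of_tile hz
  have hu : |uu z| < 7 / 5 := by
    unfold mu at hm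
    by_contra h
    push Not at h
    rw [max_eq_left] at hm
    · exact lt_irrefl _ hm
    · exact (min_le_right _ _).trans (by linarith)
  rcases le_or_gt |uu z| 1 with h | h
  · have hr1 : rr (uu z) ≤ 1 := max_le zero_le_one (min_le_left _ _)
    have hv : |vv z| < 1 := by linarith
    exact h1 (sep' hg ((mem_W z).2 ⟨h, hv.le⟩) hv hgW hgv)
  · have hrr : rr (uu z) = 3 - 2 * |uu z| := by
      unfold rr; rw [min_eq_right (by linarith), max_eq_right (by linarith)]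
    rw [hrr] at hr
    rcases lt_abs.1 h with hp | hp
    · rw [abs_of_pos (show 0 < uu z by linarith)] at hr hu
      have hd := (two_vv_lt z).2.2.1
      have hw : |uu (gB' • z)| < 1 := by
        rw [(uv_gB' z).1, abs_div, abs_neg, abs_of_pos hd, div_lt_one hd]; exact hr
      have hw' : |vv (gB' • z)| < 1 := by
        rw [(uv_gB' z).2, abs_lt, lt_div_iff₀ hd, div_lt_iff₀ hd]
        constructor <;> linarith
      have e : (g * gB) • (gB' • z) = g • z := by
        rw [← mul_smul, mul_assoc, gB_mul, mul_one]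
      have hs : SameAct (g * gB) 1 := by
        apply sep' (Gm.mul_mem hg gB_mem) ((mem_W _).2 ⟨hw.le, hw'.le⟩) hw'
        · rw [e]; exact hgW
        · rw [e]; exact hgv
      apply h2
      intro w
      have := hs (gB' • w)
      rwa [← mul_smul, mul_assoc, gB_mul, mul_one, one_smul] at this
    · have hneg : uu z < 0 := by linarith
      rw [abs_of_neg hneg] at hr hu
      have hd : 0 < 2 * uu z + 3 := by linarith [(two_vv_lt z).2.2.2]
      have hw : |uu (gA • z)| < 1 := by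
        rw [(uv_gA z).1, abs_div, abs_neg, abs_of_pos hd, div_lt_one hd]; linarith
      have hw' : |vv (gA • z)| < 1 := by
        rw [(uv_gA z).2, abs_lt, lt_div_iff₀ hd, div_lt_iff₀ hd]
        constructor <;> linarith
      have e : (g * gA') • (gA • z) = g • z := by
        rw [← mul_smul, mul_assoc, gA'_mul, mul_one]
      have hs : SameAct (g * gA') 1 := by
        apply sep' (Gm.mul_mem hg gA'_mem) ((mem_W _).2 ⟨hw.le, hw'.le⟩) hw'
        · rw [e]; exact hgW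
        · rw [e]; exact hgv
      apply h3
      intro w
      have := hs (gA • w)
      rwa [← mul_smul, mul_assoc, gA'_mul, mul_one, one_smul] at this

lemma slH_tile_other {g : SLZ} (hg : g ∈ Gm) (n : ℤ) (h1 : ¬ SameAct g 1) :
    slH '' tile g n = tile g n := by
  apply image_eq_of_iff
  intro z
  by_cases h2 : SameAct g gB'
  · rw [tile_gB'_iff h2, tile_gB'_iff h2, slH_uu, slH_vv, sl_iff (mu_nonneg _) (mu_le _)]
  · by_cases h3 : SameAct g gA
    · rw [tile_gA_iff h3, tile_gA_iff h3, slH_uu, slH_vv, sl_iff (mu_nonneg _) (mu_le _)]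
    · constructor
      · intro h
        have := slH_fix hg n h1 h2 h3 h
        have := slH.injective this
        rwa [this] at h
      · intro h
        rwa [slH_fix hg n h1 h2 h3 h]

lemma slH_maps : MapsOntoItself slH tiles := by
  apply mapsOnto_of
  · rintro T ⟨g, hg, n, rfl⟩
    by_cases h : SameAct g 1
    · rw [sameAct_tile h, slH_tile_one]
      exact ⟨1, Gm.one_mem, n + 1, rfl⟩
    · rw [slH_tile_other hg n h]
      exact ⟨g, hg, n, rfl⟩
  · rintro T ⟨g, hg, n, rfl⟩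
    by_cases h : SameAct g 1
    · refine ⟨tile 1 (n - 1), ⟨1, Gm.one_mem, n - 1, rfl⟩, ?_⟩
      rw [slH_tile_one, sameAct_tile h, sub_add_cancel]
    · exact ⟨tile g n, ⟨g, hg, n, rfl⟩, slH_tile_other hg n h⟩

lemma actH_maps {h : SLZ} (hh : h ∈ Gm) : MapsOntoItself (actH h) tiles := by
  apply mapsOnto_of
  · rintro T ⟨g, hg, n, rfl⟩
    rw [actH_image]
    exact ⟨_, Gm.mul_mem hg (Gm.inv_mem hh), n, rfl⟩
  · rintro T ⟨g, hg, n, rfl⟩
    refine ⟨tile (g * h) n, ⟨_, Gm.mul_mem hg hh, n, rfl⟩, ?_⟩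
    rw [actH_image, mul_assoc, mul_inv_cancel, mul_one]

lemma rel_succ (n : ℤ) : Rel tiles (tile 1 n) (tile 1 (n + 1)) := ⟨slH, slH_maps, slH_tile_one n⟩

lemma rel_zero (n : ℤ) : Rel tiles (tile 1 0) (tile 1 n) := by
  induction n using Int.induction_on with
  | zero => exact Rel.refl _ _
  | succ n ih => exact ih.trans (rel_succ _)
  | pred n ih =>
    have h := rel_succ (-(n : ℤ) - 1)
    rw [sub_add_cancel] at h
    exact ih.trans h.symm

lemma tiles_homeohedral : Homeohedral tiles := by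
  have key : ∀ T ∈ tiles, Rel tiles (tile 1 0) T := by
    rintro T ⟨g, hg, n, rfl⟩
    refine (rel_zero n).trans ⟨actH g⁻¹, actH_maps (Gm.inv_mem hg), ?_⟩
    rw [actH_image, inv_inv, one_mul]
  intro T hT T' hT'
  exact (key T hT).symm.trans (key T' hT')

/-! ### the singular point -/

lemma mem_Dk_zero (n : ℤ) : ((0 : ℝ), yy n) ∈ Dk := mem_Dk_seg (by constructor <;> norm_num) n

lemma pt_mem (n : ℤ) : kl.symm ⟨(0, yy n), mem_Dk_zero n⟩ ∈ tile 1 n := by
  unfold tile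
  simp only [Set.mem_ofPred_eq, one_smul, kl_symm_uu, kl_symm_vv]
  exact ⟨by norm_num, le_rfl, (yy_lt_succ n).le⟩

lemma pt_mem' (n : ℤ) : kl.symm ⟨(0, yy (n + 1)), mem_Dk_zero (n + 1)⟩ ∈ tile 1 n := by
  unfold tile
  simp only [Set.mem_ofPred_eq, one_smul, kl_symm_uu, kl_symm_vv]
  exact ⟨by norm_num, (yy_lt_succ n).le, le_rfl⟩

lemma tile_injective : Function.Injective (tile 1) := by
  intro n m h
  have h1 := pt_mem n
  have h2 := pt_mem' n
  rw [h] at h1 h2
  unfold tile at h1 h2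
  simp only [Set.mem_ofPred_eq, one_smul, kl_symm_uu, kl_symm_vv] at h1 h2
  have h3 : m ≤ n := yy_strictMono.le_iff_le.1 h1.2.1
  have h4 : n + 1 ≤ m + 1 := yy_strictMono.le_iff_le.1 h2.2.2
  omega

lemma mem_Dk_one : ((0 : ℝ), (1 : ℝ)) ∈ Dk := by
  show (0 : ℝ) ^ 2 + (1 : ℝ) ^ 2 < 2
  norm_num

/-- the singular point -/
noncomputable def sp : ℍ := kl.symm ⟨(0, 1), mem_Dk_one⟩

lemma sp_limit : Filter.Tendsto (fun k : ℕ => kl.symm ⟨(0, yy (Int.ofNat k)), mem_Dk_zero _⟩) Filter.atTop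
    (nhds sp) := by
  apply (kl.symm.continuous.tendsto _).comp
  rw [tendsto_subtype_rng]
  apply Filter.Tendsto.prodMk_nhds tendsto_const_nhds
  show Filter.Tendsto (fun k : ℕ => 1 - (1 / 2 : ℝ) ^ k) Filter.atTop (nhds 1)
  have : Filter.Tendsto (fun k : ℕ => (1 / 2 : ℝ) ^ k) Filter.atTop (nhds 0) :=
    tendsto_pow_atTop_nhds_zero_of_lt_one (by norm_num) (by norm_num)
  simpa using this.const_sub 1

lemma sp_singular {U : Set ℍ} (hU : IsOpen U) (hs : sp ∈ U) :
    {T : Set ℍ | T ∈ tiles ∧ (T ∩ U).Nonempty}.Infinite := by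
  have h1 := sp_limit.eventually (hU.mem_nhds hs)
  rw [Filter.eventually_atTop] at h1
  obtain ⟨N, hN⟩ := h1
  apply Set.infinite_of_injective_forall_mem (f := fun k : ℕ => tile 1 (Int.ofNat (N + k)))
  · intro a b hab
    have := tile_injective hab
    simp only [Int.ofNat_eq_natCast] at this
    omega
  · intro k
    refine ⟨⟨1, Gm.one_mem, _, rfl⟩, _, pt_mem _, hN (N + k) (by omega)⟩

/-! ### the plane -/

/-- the upper half plane is a plane -/
noncomputable def hp : ℍ ≃ₜ ℝ × ℝ where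
  toFun z := (z.re, Real.log z.im)
  invFun p := ⟨⟨p.1, Real.exp p.2⟩, Real.exp_pos _⟩
  left_inv := by
    intro z
    apply UpperHalfPlane.ext_re_im
    · rfl
    · show Real.exp (Real.log z.im) = z.im
      exact Real.exp_log z.im_pos
  right_inv := by
    intro p
    apply Prod.ext
    · rfl
    · show Real.log (Real.exp p.2) = p.2
      exact Real.log_exp _
  continuous_toFun := by
    apply UpperHalfPlane.continuous_re.prodMk
    exact UpperHalfPlane.continuous_im.log fun z => z.im_ne_zero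
  continuous_invFun := by
    apply Continuous.upperHalfPlaneMk
    exact Complex.equivRealProdCLM.symm.continuous.comp
      (continuous_fst.prodMk (Real.continuous_exp.comp continuous_snd))

/-- the upper half plane is homeomorphic to the plane -/
noncomputable def PP : ℍ ≃ₜ Plane := hp.trans LL.toHomeomorph.symm

theorem main : ∃ 𝒯 : Set (Set Plane), IsTiling 𝒯 ∧ N1 𝒯 ∧ N2 𝒯 ∧ Homeohedral 𝒯 ∧
    ∃ x : Plane, IsSingularPoint 𝒯 x := by
  refine ⟨transport PP tiles, transport_isTiling PP tiles_isTiling, transport_N1 PP tiles_N1,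
    transport_N2 PP tiles_N2, transport_homeohedral PP tiles_homeohedral, PP sp, ?_⟩
  intro r hr
  have h1 : IsOpen (PP ⁻¹' Metric.ball (PP sp) r) := Metric.isOpen_ball.preimage PP.continuous
  have h2 : sp ∈ PP ⁻¹' Metric.ball (PP sp) r := Metric.mem_ball_self hr
  have h3 := sp_singular h1 h2
  have h4 : Set.InjOn (fun T => PP '' T) {T : Set ℍ | T ∈ tiles ∧ (T ∩ PP ⁻¹' Metric.ball (PP sp) r).Nonempty} :=
    fun A _ B _ h => PP.injective.image_injective h
  refine (h3.image h4).mono ?_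
  rintro _ ⟨T, ⟨hT, z, hz, hz'⟩, rfl⟩
  exact ⟨⟨T, hT, rfl⟩, PP z, ⟨z, hz, rfl⟩, hz'⟩

end Pool.Agent.Helper42.Tiling
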